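import Mathlib

namespace Pool.Agent.MP_776d16_ag.H36

open Polynomial

variable {k : Type*} [Field k] {ι : Type*} [Fintype ι]

/-- The sesquilinear pairing. -/
def hp (σ : k ≃+* k) (u v : ι → k) : k := ∑ i, σ (u i) * v i

theorem hp_add_left (σ : k ≃+* k) (u u' v : ι → k) : hp σ (u + u') v = hp σ u v + hp σ u' v := by
  simp [hp, add_mul, Finset.sum_add_distrib]

theorem hp_add_right (σ : k ≃+* k) (u v v' : ι → k) : hp σ u (v + v') = hp σ u v + hp σ u v' := by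
  simp [hp, mul_add, Finset.sum_add_distrib]

theorem hp_sub_left (σ : k ≃+* k) (u u' v : ι → k) : hp σ (u - u') v = hp σ u v - hp σ u' v := by
  simp [hp, sub_mul, Finset.sum_sub_distrib]

theorem hp_sub_right (σ : k ≃+* k) (u v v' : ι → k) : hp σ u (v - v') = hp σ u v - hp σ u v' := by
  simp [hp, mul_sub, Finset.sum_sub_distrib]

theorem hp_smul_left (σ : k ≃+* k) (c : k) (u v : ι → k) : hp σ (c • u) v = σ c * hp σ u v := by
  simp [hp, Finset.mul_sum, mul_assoc]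

theorem hp_smul_right (σ : k ≃+* k) (c : k) (u v : ι → k) : hp σ u (c • v) = c * hp σ u v := by
  simp only [hp, Finset.mul_sum, Pi.smul_apply, smul_eq_mul]
  exact Finset.sum_congr rfl fun i _ => by ring

theorem hp_single [DecidableEq ι] (σ : k ≃+* k) (l : ι) (v : ι → k) :
    hp σ (Pi.single l 1) v = v l := by
  unfold hp
  rw [Finset.sum_eq_single l]
  · simp
  · intro j _ hj; simp [Pi.single_eq_of_ne hj]
  · simp

theorem hp_single_right [DecidableEq ι] (σ : k ≃+* k) (l : ι) (v : ι → k) :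
    hp σ v (Pi.single l 1) = σ (v l) := by
  unfold hp
  rw [Finset.sum_eq_single l]
  · simp
  · intro j _ hj; simp [Pi.single_eq_of_ne hj]
  · simp

theorem hp_eq_dot (σ : k ≃+* k) (u v : ι → k) : hp σ u v = (fun i => σ (u i)) ⬝ᵥ v := rfl

theorem hp_eq_map_dot (σ : k ≃+* k) (u v : ι → k) :
    hp σ u v = σ ((fun i => σ.symm (v i)) ⬝ᵥ u) := by
  simp only [hp, dotProduct, map_sum, map_mul, RingEquiv.apply_symm_apply]
  exact Finset.sum_congr rfl fun i _ => mul_comm _ _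

theorem hp_conj (σ : k ≃+* k) (u v : ι → k) (hu : ∀ i, σ (σ (u i)) = u i) :
    σ (hp σ u v) = hp σ v u := by
  simp only [hp, map_sum, map_mul, hu]
  exact Finset.sum_congr rfl fun i _ => mul_comm _ _

theorem hp_rat (σ : k ≃+* k) (u v : ι → k) (hu : ∀ i, σ (σ (u i)) = u i)
    (hv : ∀ i, σ (σ (v i)) = v i) : σ (σ (hp σ u v)) = hp σ u v := by
  rw [hp_conj σ u v hu, hp_conj σ v u hv]

theorem polar (σ : k ≃+* k) (W : Set (ι → k)) (s0 : k) (hs0 : σ s0 ≠ s0)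
    (h1 : ∀ u ∈ W, ∀ v ∈ W, u + v ∈ W) (h2 : ∀ u ∈ W, s0 • u ∈ W)
    (h : ∀ u ∈ W, hp σ u u = 0) : ∀ u ∈ W, ∀ v ∈ W, hp σ u v = 0 := by
  intro u hu v hv
  have e1 := h _ (h1 u hu v hv)
  have e2 := h _ (h1 u hu _ (h2 v hv))
  simp only [hp_add_left, hp_add_right, hp_smul_left, hp_smul_right, h u hu, h v hv] at e1 e2
  have : (s0 - σ s0) * hp σ u v = 0 := by linear_combination e2 - σ s0 * e1
  exact (mul_eq_zero.1 this).resolve_left (sub_ne_zero.2 hs0.symm)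

theorem span3 [DecidableEq ι] (u1 u2 u3 v : ι → k)
    (h : ∀ w, u1 ⬝ᵥ w = 0 → u2 ⬝ᵥ w = 0 → u3 ⬝ᵥ w = 0 → v ⬝ᵥ w = 0) :
    ∃ α β γ : k, v = α • u1 + β • u2 + γ • u3 := by
  by_contra hv
  have hv' : v ∉ Submodule.span k ({u1, u2, u3} : Set (ι → k)) := by
    intro hm
    obtain ⟨α, β, γ, e⟩ := Submodule.mem_span_triple.1 hm
    exact hv ⟨α, β, γ, e.symm⟩
  obtain ⟨l, hl, hlS⟩ := Submodule.exists_dual_map_eq_bot_of_notMem hv' inferInstance
  have hl' : ∀ x : ι → k, l x = x ⬝ᵥ (fun i => l (Pi.single i 1)) := by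
    intro x
    rw [LinearMap.pi_apply_eq_sum_univ l x]
    refine Finset.sum_congr rfl fun i _ => ?_
    rw [smul_eq_mul]
    congr 2
    funext j
    simp [Pi.single_apply, eq_comm]
  have h0 : ∀ x ∈ ({u1, u2, u3} : Set (ι → k)), x ⬝ᵥ (fun i => l (Pi.single i 1)) = 0 := by
    intro x hx
    have : l x ∈ (Submodule.span k ({u1, u2, u3} : Set (ι → k))).map l :=
      Submodule.mem_map_of_mem (Submodule.subset_span hx)
    rwa [hlS, Submodule.mem_bot, hl'] at this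
  apply hl
  rw [hl']
  exact h _ (h0 _ (by simp)) (h0 _ (by simp)) (h0 _ (by simp))

theorem exists_perp3 (hm : 4 ≤ Fintype.card ι) (u1 u2 u3 : ι → k) :
    ∃ w : ι → k, w ≠ 0 ∧ u1 ⬝ᵥ w = 0 ∧ u2 ⬝ᵥ w = 0 ∧ u3 ⬝ᵥ w = 0 := by
  let M : Matrix (Fin 3) ι k := Matrix.of ![u1, u2, u3]
  have h : LinearMap.ker M.mulVecLin ≠ ⊥ :=
    LinearMap.ker_ne_bot_of_finrank_lt (by simp; omega)
  obtain ⟨w, hw, hw0⟩ := Submodule.exists_mem_ne_zero_of_ne_bot h
  have hw' : M.mulVec w = 0 := hw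
  exact ⟨w, hw0, congrFun hw' 0, congrFun hw' 1, congrFun hw' 2⟩

theorem exists_perp2 [DecidableEq ι] (hm : 4 ≤ Fintype.card ι) (u1 u2 : ι → k) :
    ∃ w1 w2 : ι → k, u1 ⬝ᵥ w1 = 0 ∧ u2 ⬝ᵥ w1 = 0 ∧ u1 ⬝ᵥ w2 = 0 ∧ u2 ⬝ᵥ w2 = 0 ∧
      ∀ x y : k, x • w1 + y • w2 = 0 → x = 0 ∧ y = 0 := by
  obtain ⟨w1, h0, h1, h2, -⟩ := exists_perp3 hm u1 u2 0
  obtain ⟨l, hl⟩ := Function.ne_iff.1 h0
  obtain ⟨w2, h0', h1', h2', h3'⟩ := exists_perp3 hm u1 u2 (Pi.single l 1)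
  refine ⟨w1, w2, h1, h2, h1', h2', fun x y hxy => ?_⟩
  have e : w2 l = 0 := by simpa using h3'
  have e1 := congrFun hxy l
  simp only [Pi.add_apply, Pi.smul_apply, smul_eq_mul, e, mul_zero, add_zero, Pi.zero_apply] at e1
  have hx : x = 0 := (mul_eq_zero.1 e1).resolve_right hl
  rw [hx, zero_smul, zero_add] at hxy
  exact ⟨hx, (smul_eq_zero.1 hxy).resolve_right h0'⟩

omit [Fintype ι] in
theorem avoid {κ : Type*} [DecidableEq κ] (W : Set (ι → k)) (S : Set k) (N D : ℕ)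
    (hS : ∀ P : k[X], P ≠ 0 → P.natDegree < N → ∃ s ∈ S, P.eval s ≠ 0)
    (hW : ∀ u ∈ W, ∀ v ∈ W, ∀ s ∈ S, u + s • (v - u) ∈ W) (hne : W.Nonempty)
    (Φ : κ → (ι → k) → k) (T : Finset κ)
    (hΦ : ∀ x ∈ T, ∀ u v, ∃ P : k[X], P.natDegree ≤ D ∧ ∀ s, Φ x (u + s • v) = P.eval s)
    (hT : ∀ x ∈ T, ∃ w ∈ W, Φ x w ≠ 0) (hN : T.card * D < N) :
    ∃ w ∈ W, ∀ x ∈ T, Φ x w ≠ 0 := by
  induction T using Finset.induction_on with
  | empty => obtain ⟨w, hw⟩ := hne; exact ⟨w, hw, by simp⟩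
  | insert x0 T hx0 ih =>
    obtain ⟨y, hy, hyT⟩ := ih (fun x hx => hΦ x (Finset.mem_insert_of_mem hx))
      (fun x hx => hT x (Finset.mem_insert_of_mem hx))
      (lt_of_le_of_lt (Nat.mul_le_mul_right _ (Finset.card_le_card (Finset.subset_insert _ _))) hN)
    obtain ⟨w, hw, hw0⟩ := hT x0 (Finset.mem_insert_self _ _)
    have h1 : ∀ x : κ, ∃ P : k[X], x ∈ insert x0 T →
        P ≠ 0 ∧ P.natDegree ≤ D ∧ ∀ s, Φ x (y + s • (w - y)) = P.eval s := by
      intro x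
      by_cases hx : x ∈ insert x0 T
      · obtain ⟨P, hP, hP'⟩ := hΦ x hx y (w - y)
        refine ⟨P, fun _ => ⟨?_, hP, hP'⟩⟩
        rintro rfl
        rcases Finset.mem_insert.1 hx with rfl | hx'
        · exact hw0 (by simpa using hP' 1)
        · exact hyT x hx' (by simpa using hP' 0)
      · exact ⟨0, fun h => absurd h hx⟩
    choose P hP using h1
    obtain ⟨s, hs, hs0⟩ := hS (∏ x ∈ insert x0 T, P x)
      (Finset.prod_ne_zero_iff.2 fun x hx => (hP x hx).1)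
      (lt_of_le_of_lt ((natDegree_prod_le _ _).trans (by
        simpa using Finset.sum_le_card_nsmul _ _ D (fun x hx => (hP x hx).2.1))) hN)
    rw [eval_prod] at hs0
    refine ⟨_, hW y hy w hw s hs, fun x hx => ?_⟩
    rw [(hP x hx).2.2]
    exact Finset.prod_ne_zero_iff.1 hs0 x hx

theorem line_hp (σ : k ≃+* k) (q : ℕ) (hσ : ∀ x, σ x = x ^ q) (u v : ι → k) :
    ∃ P : k[X], P.natDegree ≤ q + 1 ∧ ∀ s : k, hp σ (u + s • v) (u + s • v) = P.eval s := by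
  refine ⟨∑ i, (C (v i) * X + C (u i)) ^ (q + 1), ?_, fun s => ?_⟩
  · refine natDegree_sum_le_of_forall_le _ _ fun i _ => natDegree_pow_le.trans ?_
    have : (C (v i) * X + C (u i)).natDegree ≤ 1 := natDegree_linear_le
    nlinarith
  · simp only [hp, hσ, eval_finsetSum, eval_pow, eval_add, eval_mul, eval_C, eval_X,
      Pi.add_apply, Pi.smul_apply, smul_eq_mul]
    exact Finset.sum_congr rfl fun i _ => by ring

theorem line_lin (D : ℕ) (hD : 1 ≤ D) (x y : k) :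
    ∃ P : k[X], P.natDegree ≤ D ∧ ∀ s : k, x + s * y = P.eval s :=
  ⟨C y * X + C x, natDegree_linear_le.trans hD, fun s => by simp; ring⟩

theorem fixed_many [IsAlgClosed k] (p e : ℕ) [Fact p.Prime] [CharP k p] (he : e ≠ 0)
    (P : k[X]) (hP : P ≠ 0) (hd : P.natDegree < p ^ e) : ∃ s : k, s ^ p ^ e = s ∧ P.eval s ≠ 0 := by
  classical
  by_contra h
  push Not at h
  have hsep : (X ^ p ^ e - X : k[X]).Separable := galois_poly_separable p _ (dvd_pow_self p he)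
  have h1 : 1 < p ^ e := Nat.one_lt_pow he (Fact.out : p.Prime).one_lt
  have hdeg : (X ^ p ^ e - X : k[X]).natDegree = p ^ e := FiniteField.X_pow_card_sub_X_natDegree_eq k h1
  have hne : (X ^ p ^ e - X : k[X]) ≠ 0 := FiniteField.X_pow_card_sub_X_ne_zero k h1
  have hc : (X ^ p ^ e - X : k[X]).roots.toFinset.card = p ^ e := by
    rw [Multiset.toFinset_card_of_nodup (nodup_roots hsep), IsAlgClosed.card_roots_eq_natDegree, hdeg]
  have hsub : (X ^ p ^ e - X : k[X]).roots.toFinset ⊆ P.roots.toFinset := by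
    intro s hs
    rw [Multiset.mem_toFinset, mem_roots hne] at hs
    rw [Multiset.mem_toFinset, mem_roots hP]
    apply h
    simpa [sub_eq_zero] using hs
  have := (Finset.card_le_card hsub).trans ((Multiset.toFinset_card_le _).trans (card_roots' P))
  omega

theorem pick_d [DecidableEq ι] (σ : k ≃+* k) (q N : ℕ) (hσ : ∀ x, σ x = x ^ q)
    (hS : ∀ P : k[X], P ≠ 0 → P.natDegree < N → ∃ s : k, σ (σ s) = s ∧ P.eval s ≠ 0)
    (hN : (Fintype.card ι * Fintype.card ι + 1) * (q + 1) < N)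
    (W : Set (ι → k)) (hW : ∀ u ∈ W, ∀ v ∈ W, ∀ s : k, σ (σ s) = s → u + s • (v - u) ∈ W)
    (a : ι → k) (h0 : ∃ d ∈ W, hp σ d d ≠ 0)
    (h1 : ∀ i j, i ≠ j → ∃ d ∈ W, d i * a j ≠ d j * a i) :
    ∃ d ∈ W, hp σ d d ≠ 0 ∧ ∀ i j, i ≠ j → d i * a j ≠ d j * a i := by
  let Φ : Option (ι × ι) → (ι → k) → k := fun x d =>
    match x with
    | none => hp σ d d
    | some x => if x.1 = x.2 then 1 else d x.1 * a x.2 - d x.2 * a x.1
  obtain ⟨d0, hd0, hd0'⟩ := h0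
  obtain ⟨d, hd, hd'⟩ := avoid W {s | σ (σ s) = s} N (q + 1) hS hW ⟨d0, hd0⟩ Φ Finset.univ
    (by
      rintro (_ | ⟨i, j⟩) - u v
      · exact line_hp σ q hσ u v
      · by_cases hij : i = j
        · exact ⟨1, by simp, fun s => by simp [Φ, hij]⟩
        · obtain ⟨P, hP, hP'⟩ := line_lin (q + 1) (by omega) (u i * a j - u j * a i)
            (v i * a j - v j * a i)
          refine ⟨P, hP, fun s => ?_⟩
          rw [← hP']
          simp only [Φ, hij, if_false, Pi.add_apply, Pi.smul_apply, smul_eq_mul]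
          ring)
    (by
      rintro (_ | ⟨i, j⟩) -
      · exact ⟨d0, hd0, hd0'⟩
      · by_cases hij : i = j
        · exact ⟨d0, hd0, by simp [Φ, hij]⟩
        · obtain ⟨d, hd, hd'⟩ := h1 i j hij
          exact ⟨d, hd, by simpa [Φ, hij, sub_eq_zero] using hd'⟩)
    (by simpa using hN)
  refine ⟨d, hd, hd' none (Finset.mem_univ _), fun i j hij => ?_⟩
  simpa [Φ, hij, sub_eq_zero] using hd' (some (i, j)) (Finset.mem_univ _)

/-- The conditions on a frame. -/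
structure IsFrame (σ : k ≃+* k) (z d b a : ι → k) : Prop where
  a_ne : ∀ i, a i ≠ 0
  da_ne : ∀ i j, i ≠ j → d i * a j ≠ d j * a i
  dd_ne : hp σ d d ≠ 0
  zd : hp σ z d = 0
  dz : hp σ d z + hp σ z b = 0
  dd : hp σ d d + hp σ z a = 0
  db : hp σ d b = 0
  da : hp σ d a = 0
  bz : hp σ b z = 0
  bd : hp σ b d = 0
  bb : hp σ b b + hp σ a z = 0
  ba : hp σ b a = 0
  ad : hp σ a d = 0
  ab : hp σ a b = 0
  aa : hp σ a a = 0

theorem IsFrame.smul {σ : k ≃+* k} {z d b a : ι → k} (h : IsFrame σ z d b a) {c : k} (hc : c ≠ 0) :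
    IsFrame σ (c • z) (c • d) (c • b) (c • a) := by
  have hσc : σ c ≠ 0 := by simpa using hc
  refine ⟨fun i => mul_ne_zero hc (h.a_ne i), fun i j hij e => h.da_ne i j hij ?_, ?_, ?_, ?_, ?_, ?_,
    ?_, ?_, ?_, ?_, ?_, ?_, ?_, ?_⟩
  · simp only [Pi.smul_apply, smul_eq_mul] at e
    have : c * c * (d i * a j - d j * a i) = 0 := by linear_combination e
    exact sub_eq_zero.1 ((mul_eq_zero.1 this).resolve_left (mul_ne_zero hc hc))
  all_goals simp only [hp_smul_left, hp_smul_right]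
  · exact mul_ne_zero hc (mul_ne_zero hσc h.dd_ne)
  · rw [h.zd]; ring
  · linear_combination c * σ c * h.dz
  · linear_combination c * σ c * h.dd
  · rw [h.db]; ring
  · rw [h.da]; ring
  · rw [h.bz]; ring
  · rw [h.bd]; ring
  · linear_combination c * σ c * h.bb
  · rw [h.ba]; ring
  · rw [h.ad]; ring
  · rw [h.ab]; ring
  · rw [h.aa]; ring

end Pool.Agent.MP_776d16_ag.H36
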