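import Mathlib
import Pool.Agent.MP_776d16_ag.H36.Herm

namespace Pool.Agent.MP_776d16_ag.H36

open Polynomial

variable {k : Type*} [Field k] {ι : Type*} [Fintype ι] [DecidableEq ι]

omit [DecidableEq ι] in
/-- A rational subspace on which the form is nondegenerate has a non-isotropic vector. -/
theorem exists_aniso (σ : k ≃+* k) (s0 : k) (hs0 : σ s0 ≠ s0) (W : Set (ι → k))
    (h1 : ∀ u ∈ W, ∀ v ∈ W, u + v ∈ W) (h2 : ∀ u ∈ W, s0 • u ∈ W)
    (hproj : ∀ l, ∃ y ∈ W, ∀ w ∈ W, hp σ y w = w l) (hne : ∃ w ∈ W, w ≠ 0) :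
    ∃ w ∈ W, hp σ w w ≠ 0 := by
  by_contra h
  push Not at h
  obtain ⟨w, hw, hw0⟩ := hne
  apply hw0
  funext l
  obtain ⟨y, hy, hy'⟩ := hproj l
  rw [← hy' w hw]
  exact polar σ W s0 hs0 h1 h2 h y hy w hw

theorem exists_other (hm : 4 ≤ Fintype.card ι) (i j l : ι) : ∃ x : ι, x ≠ i ∧ x ≠ j ∧ x ≠ l := by
  by_contra h
  push Not at h
  have hsub : (Finset.univ : Finset ι) ⊆ {i, j, l} := by
    intro x _
    by_cases h1 : x = i
    · simp [h1]
    · by_cases h2 : x = j
      · simp [h2]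
      · simp [h x h1 h2]
  have := (Finset.card_le_card hsub).trans (Finset.card_le_three)
  rw [Finset.card_univ] at this
  omega

theorem exists_iso [IsAlgClosed k] (σ : k ≃+* k) (q : ℕ) (hσ : ∀ x, σ x = x ^ q) (hq : 1 ≤ q)
    (h2 : (2 : k) ≠ 0) (hc : (1 : k) - Fintype.card ι ≠ 0) (z : ι → k) (hz : z ≠ 0) :
    ∃ a : ι → k, (∀ i, σ (σ (a i)) = a i) ∧ (∀ i, a i ≠ 0) ∧ hp σ a a = 0 ∧ hp σ z a ≠ 0 := by
  obtain ⟨l, hl⟩ := Function.ne_iff.1 hz
  obtain ⟨ρ, hρ⟩ := IsAlgClosed.exists_pow_nat_eq ((1 : k) - Fintype.card ι) (n := q + 1) (by omega)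
  have hρ' : σ ρ * ρ = 1 - Fintype.card ι := by rw [hσ, ← pow_succ, hρ]
  have hρ0 : ρ ≠ 0 := by
    rintro rfl
    exact hc (by simpa using hρ'.symm)
  have hρr : σ (σ ρ) = ρ := by
    have e := congrArg σ hρ'
    rw [map_mul, map_sub, map_one, map_natCast, ← hρ'] at e
    have hσ0 : σ ρ ≠ 0 := by simpa using hρ0
    have : (σ (σ ρ) - ρ) * σ ρ = 0 := by linear_combination e
    exact sub_eq_zero.1 ((mul_eq_zero.1 this).resolve_right hσ0)
  have key : ∀ t : k, σ (σ t) = t → t ≠ 0 → σ t * t = 1 - Fintype.card ι →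
      (∀ i, σ (σ (Function.update (1 : ι → k) l t i)) = Function.update (1 : ι → k) l t i) ∧
      (∀ i, Function.update (1 : ι → k) l t i ≠ 0) ∧
      hp σ (Function.update (1 : ι → k) l t) (Function.update (1 : ι → k) l t) = 0 := by
    intro t h1 h2 h3
    refine ⟨fun i => ?_, fun i => ?_, ?_⟩
    · by_cases h : i = l
      · subst h; simpa using h1
      · simp [Function.update_of_ne h]
    · by_cases h : i = l
      · subst h; simpa using h2
      · simp [Function.update_of_ne h]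
    · have e : ∀ i, σ (Function.update (1 : ι → k) l t i) * Function.update (1 : ι → k) l t i =
          1 + (Pi.single l (-(Fintype.card ι : k)) : ι → k) i := by
        intro i
        by_cases h : i = l
        · subst h; simp [h3, sub_eq_add_neg]
        · simp [Function.update_of_ne h, Pi.single_eq_of_ne h]
      simp [hp, e, Finset.sum_add_distrib]
  have lin : ∀ t : k, hp σ z (Function.update (1 : ι → k) l t) =
      hp σ z (Function.update (1 : ι → k) l 0) + t * σ (z l) := by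
    intro t
    have : Function.update (1 : ι → k) l t =
        Function.update (1 : ι → k) l 0 + t • (Pi.single l 1 : ι → k) := by
      funext i
      by_cases h : i = l
      · subst h; simp
      · simp [Function.update_of_ne h, Pi.single_eq_of_ne h]
    rw [this, hp_add_right, hp_smul_right, hp_single_right]
  by_cases h : hp σ z (Function.update (1 : ι → k) l ρ) = 0
  · obtain ⟨k1, k2, k3⟩ := key (-ρ) (by simp [hρr]) (by simpa using hρ0) (by simpa using hρ')
    refine ⟨_, k1, k2, k3, fun h' => ?_⟩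
    rw [lin] at h h'
    have : 2 * (ρ * σ (z l)) = 0 := by linear_combination h - h'
    have hl' : σ (z l) ≠ 0 := by simpa using hl
    exact mul_ne_zero h2 (mul_ne_zero hρ0 hl') this
  · obtain ⟨k1, k2, k3⟩ := key ρ hρr hρ0 hρ'
    exact ⟨_, k1, k2, k3, h⟩

theorem frame_rat [IsAlgClosed k] (σ : k ≃+* k) (q N : ℕ) (hσ : ∀ x, σ x = x ^ q) (hq : 1 ≤ q)
    (h2 : (2 : k) ≠ 0) (hc : (1 : k) - Fintype.card ι ≠ 0) (hm : 4 ≤ Fintype.card ι)
    (s0 : k) (hs0 : σ s0 ≠ s0) (hs0' : σ (σ s0) = s0)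
    (hS : ∀ P : k[X], P ≠ 0 → P.natDegree < N → ∃ s : k, σ (σ s) = s ∧ P.eval s ≠ 0)
    (hN : (Fintype.card ι * Fintype.card ι + 1) * (q + 1) < N)
    (z : ι → k) (hz : z ≠ 0) (hzr : ∀ i, σ (σ (z i)) = z i) :
    ∃ d b a : ι → k, IsFrame σ z d b a := by
  obtain ⟨a, har, ha0, haa, hza⟩ := exists_iso σ q hσ hq h2 hc z hz
  have haz : hp σ a z ≠ 0 := by
    rw [← hp_conj σ z a hzr]; simpa using hza
  have sym : ∀ u v : ι → k, (∀ i, σ (σ (u i)) = u i) → hp σ u v = 0 → hp σ v u = 0 := by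
    intro u v hu h
    rw [← hp_conj σ u v hu, h, map_zero]
  have her : ∀ l i : ι, σ (σ ((Pi.single l 1 : ι → k) i)) = (Pi.single l 1 : ι → k) i := by
    intro l i
    by_cases h : i = l
    · subst h; simp
    · simp [Pi.single_eq_of_ne h]
  set W : Set (ι → k) := {d | (∀ i, σ (σ (d i)) = d i) ∧ hp σ z d = 0 ∧ hp σ a d = 0} with hW
  have proj : ∀ l : ι, ∃ α β : k, α * hp σ a z = σ (a l) ∧
      (Pi.single l 1 : ι → k) - α • z - β • a ∈ W := by
    intro l
    set α := hp σ a (Pi.single l 1) / hp σ a z with hα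
    set β := (hp σ z (Pi.single l 1) - α * hp σ z z) / hp σ z a with hβ
    have hαr : σ (σ α) = α := by
      rw [hα, map_div₀, map_div₀, hp_rat σ _ _ har (her l), hp_rat σ _ _ har hzr]
    have hβr : σ (σ β) = β := by
      rw [hβ, map_div₀, map_div₀, map_sub, map_sub, map_mul, map_mul, hαr,
        hp_rat σ _ _ hzr (her l), hp_rat σ _ _ hzr hzr, hp_rat σ _ _ hzr har]
    refine ⟨α, β, by rw [hα, div_mul_cancel₀ _ haz, hp_single_right], fun i => ?_, ?_, ?_⟩
    · simp only [Pi.sub_apply, Pi.smul_apply, smul_eq_mul, map_sub, map_mul, hαr, hβr, hzr, har, her]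
    · rw [hp_sub_right, hp_sub_right, hp_smul_right, hp_smul_right, hβ, div_mul_cancel₀ _ hza]
      ring
    · rw [hp_sub_right, hp_sub_right, hp_smul_right, hp_smul_right, haa, hα,
        div_mul_cancel₀ _ haz]
      ring
  choose α β hα hy using proj
  have hyw : ∀ l, ∀ w ∈ W, hp σ ((Pi.single l 1 : ι → k) - α l • z - β l • a) w = w l := by
    intro l w hw
    rw [hp_sub_left, hp_sub_left, hp_smul_left, hp_smul_left, hw.2.1, hw.2.2, hp_single]
    ring
  have hL : ∀ i j, i ≠ j → ∃ d ∈ W, d i * a j ≠ d j * a i := by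
    intro i j hij
    by_cases hzz : z i * a j = z j * a i
    · refine ⟨_, hy i, fun h => ha0 j ?_⟩
      simp only [Pi.sub_apply, Pi.smul_apply, smul_eq_mul, Pi.single_eq_same,
        Pi.single_eq_of_ne hij.symm] at h
      linear_combination h + α i * hzz
    · obtain ⟨l, hli, hlj, -⟩ := exists_other hm i j j
      refine ⟨_, hy l, fun h => hzz ?_⟩
      simp only [Pi.sub_apply, Pi.smul_apply, smul_eq_mul, Pi.single_eq_of_ne hli.symm,
        Pi.single_eq_of_ne hlj.symm] at h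
      have hα0 : α l ≠ 0 := by
        intro h0
        have := hα l
        rw [h0, zero_mul] at this
        exact ha0 l (by simpa using this.symm)
      have : α l * (z i * a j - z j * a i) = 0 := by linear_combination -h
      exact sub_eq_zero.1 ((mul_eq_zero.1 this).resolve_left hα0)
  have hWadd : ∀ u ∈ W, ∀ v ∈ W, u + v ∈ W := by
    intro u hu v hv
    refine ⟨fun i => by simp [hu.1 i, hv.1 i], ?_, ?_⟩
    · rw [hp_add_right, hu.2.1, hv.2.1, add_zero]
    · rw [hp_add_right, hu.2.2, hv.2.2, add_zero]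
  have hWs : ∀ s : k, σ (σ s) = s → ∀ u ∈ W, s • u ∈ W := by
    intro s hs u hu
    refine ⟨fun i => by simp [hu.1 i, hs], ?_, ?_⟩
    · rw [hp_smul_right, hu.2.1, mul_zero]
    · rw [hp_smul_right, hu.2.2, mul_zero]
  have hWsub : ∀ u ∈ W, ∀ v ∈ W, u - v ∈ W := by
    intro u hu v hv
    have := hWadd u hu _ (hWs (-1) (by simp) v hv)
    rwa [neg_one_smul, ← sub_eq_add_neg] at this
  have h0 : ∃ d ∈ W, hp σ d d ≠ 0 := by
    refine exists_aniso σ s0 hs0 W hWadd (hWs s0 hs0') (fun l => ⟨_, hy l, hyw l⟩) ?_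
    obtain ⟨l, -⟩ := Function.ne_iff.1 hz
    obtain ⟨j, hj, -, -⟩ := exists_other hm l l l
    obtain ⟨d, hd, hd'⟩ := hL j l hj
    exact ⟨d, hd, by rintro rfl; simp at hd'⟩
  obtain ⟨d, hd, hdd, hda⟩ := pick_d σ q N hσ hS hN W
    (fun u hu v hv s hs => hWadd u hu _ (hWs s hs _ (hWsub v hv u hu))) a h0 hL
  set W2 : Set (ι → k) := {b | b ∈ W ∧ hp σ d b = 0} with hW2
  have proj2 : ∀ l : ι, ∃ γ : k, (Pi.single l 1 : ι → k) - α l • z - β l • a - γ • d ∈ W2 := by
    intro l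
    set γ := hp σ d ((Pi.single l 1 : ι → k) - α l • z - β l • a) / hp σ d d with hγ
    have hγr : σ (σ γ) = γ := by
      rw [hγ, map_div₀, map_div₀, hp_rat σ _ _ hd.1 (hy l).1, hp_rat σ _ _ hd.1 hd.1]
    refine ⟨γ, hWsub _ (hy l) _ (hWs γ hγr d hd), ?_⟩
    rw [hp_sub_right, hp_smul_right, hγ, div_mul_cancel₀ _ hdd, sub_self]
  choose γ hy2 using proj2
  obtain ⟨b, hb, hbb⟩ : ∃ b ∈ W2, hp σ b b ≠ 0 := by
    refine exists_aniso σ s0 hs0 W2 (fun u hu v hv => ⟨hWadd u hu.1 v hv.1, ?_⟩)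
      (fun u hu => ⟨hWs s0 hs0' u hu.1, ?_⟩) (fun l => ⟨_, hy2 l, fun w hw => ?_⟩) ?_
    · rw [hp_add_right, hu.2, hv.2, add_zero]
    · rw [hp_smul_right, hu.2, mul_zero]
    · rw [hp_sub_left, hyw l w hw.1, hp_smul_left, hw.2]; ring
    · by_contra h
      push Not at h
      obtain ⟨w, hw0, w1, w2, w3⟩ := exists_perp3 hm z a d
      apply hw0
      funext l
      have e := congrArg (fun v => v ⬝ᵥ w) (h _ (hy2 l))
      simpa [sub_dotProduct, smul_dotProduct, w1, w2, w3] using e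
  obtain ⟨x, hx⟩ := IsAlgClosed.exists_pow_nat_eq (-hp σ z a / hp σ d d) (n := q + 1) (by omega)
  obtain ⟨y, hy'⟩ := IsAlgClosed.exists_pow_nat_eq (-hp σ a z / hp σ b b) (n := q + 1) (by omega)
  have hx' : x * (σ x * hp σ d d) = -hp σ z a := by
    rw [hσ, ← mul_assoc, ← pow_succ', hx, div_mul_cancel₀ _ hdd]
  have hy'' : y * (σ y * hp σ b b) = -hp σ a z := by
    rw [hσ, ← mul_assoc, ← pow_succ', hy', div_mul_cancel₀ _ hbb]
  have hx0 : x ≠ 0 := by
    rintro rfl
    exact hza (by simpa using hx'.symm)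
  have e1 := hd.2.1
  have e2 := hd.2.2
  have e3 := hb.1.2.1
  have e4 := hb.1.2.2
  have e5 : hp σ d b = 0 := hb.2
  have e1' := sym _ _ hzr e1
  have e2' := sym _ _ har e2
  have e3' := sym _ _ hzr e3
  have e4' := sym _ _ har e4
  have e5' := sym _ _ hd.1 e5
  refine ⟨x • d, y • b, a, ha0, fun i j hij e => hda i j hij ?_, ?_, ?_, ?_, ?_, ?_, ?_, ?_, ?_, ?_,
    ?_, ?_, ?_, haa⟩
  · simp only [Pi.smul_apply, smul_eq_mul] at e
    have : x * (d i * a j - d j * a i) = 0 := by linear_combination e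
    exact sub_eq_zero.1 ((mul_eq_zero.1 this).resolve_left hx0)
  all_goals simp only [hp_smul_left, hp_smul_right, e1, e2, e3, e4, e5, e1', e2', e3', e4', e5',
    mul_zero, add_zero]
  · rw [hx']; simpa using hza
  · rw [hx']; ring
  · rw [hy'']; ring

end Pool.Agent.MP_776d16_ag.H36
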