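import Mathlib
import Pool.Agent.MP_776d16_ag.H36.FrameR

namespace Pool.Agent.MP_776d16_ag.H36

open Polynomial

variable {k : Type*} [Field k] {ι : Type*} [Fintype ι] [DecidableEq ι]

omit [DecidableEq ι] in
theorem dot_symm_eq_zero (σ : k ≃+* k) (u v : ι → k) :
    (fun i => σ.symm (v i)) ⬝ᵥ u = 0 ↔ hp σ u v = 0 := by
  rw [hp_eq_map_dot]; simp

theorem span2 (u1 u2 v : ι → k) (h : ∀ w, u1 ⬝ᵥ w = 0 → u2 ⬝ᵥ w = 0 → v ⬝ᵥ w = 0) :
    ∃ α β : k, v = α • u1 + β • u2 := by
  obtain ⟨α, β, γ, e⟩ := span3 u1 u2 0 v (fun w h1 h2 _ => h w h1 h2)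
  exact ⟨α, β, by simpa using e⟩

theorem span1 (u1 v : ι → k) (h : ∀ w, u1 ⬝ᵥ w = 0 → v ⬝ᵥ w = 0) : ∃ α : k, v = α • u1 := by
  obtain ⟨α, β, e⟩ := span2 u1 0 v (fun w h1 _ => h w h1)
  exact ⟨α, by simpa using e⟩

/-- If the form vanishes on a codimension two subspace of the hyperplane `H`, then `z` lies in it. -/
theorem lemK (σ : k ≃+* k) (s0 : k) (hs0 : σ s0 ≠ s0) (hm : 4 ≤ Fintype.card ι) (z c : ι → k)
    (h : ∀ w, hp σ w z = 0 → c ⬝ᵥ w = 0 → hp σ w w = 0) : hp σ z z = 0 ∧ c ⬝ᵥ z = 0 := by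
  set ζ : ι → k := fun i => σ.symm (z i) with hζ
  set W : Set (ι → k) := {w | hp σ w z = 0 ∧ c ⬝ᵥ w = 0} with hW
  have hpol := polar σ W s0 hs0
    (fun u hu v hv => ⟨by rw [hp_add_left, hu.1, hv.1, add_zero],
      by rw [dotProduct_add, hu.2, hv.2, add_zero]⟩)
    (fun u hu => ⟨by rw [hp_smul_left, hu.1, mul_zero],
      by rw [dotProduct_smul, hu.2, smul_zero]⟩)
    (fun u hu => h u hu.1 hu.2)
  have hsp : ∀ w' ∈ W, ∃ α β : k, ∀ i, w' i = σ α * z i + σ β * σ (c i) := by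
    intro w' hw'
    obtain ⟨α, β, e⟩ := span2 ζ c (fun i => σ.symm (w' i)) (fun w h1 h2 =>
      (dot_symm_eq_zero σ w w').2 (hpol w ⟨(dot_symm_eq_zero σ w z).1 h1, h2⟩ w' hw'))
    refine ⟨α, β, fun i => ?_⟩
    have := congrArg σ (congrFun e i)
    simpa [hζ] using this
  obtain ⟨w1, w2, a1, b1, a2, b2, hind⟩ := exists_perp2 hm ζ c
  have m1 : w1 ∈ W := ⟨(dot_symm_eq_zero σ w1 z).1 a1, b1⟩
  have m2 : w2 ∈ W := ⟨(dot_symm_eq_zero σ w2 z).1 a2, b2⟩
  obtain ⟨α1, β1, e1⟩ := hsp w1 m1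
  obtain ⟨α2, β2, e2⟩ := hsp w2 m2
  have fin : ∀ x y t : k, t ≠ 0 → x • w1 + y • w2 = t • z → hp σ z z = 0 ∧ c ⬝ᵥ z = 0 := by
    intro x y t ht e
    have f1 : hp σ (t • z) z = 0 := by
      rw [← e, hp_add_left, hp_smul_left, hp_smul_left, m1.1, m2.1]; ring
    have f2 : c ⬝ᵥ (t • z) = 0 := by
      rw [← e, dotProduct_add, dotProduct_smul, dotProduct_smul, b1, b2]; simp
    rw [hp_smul_left] at f1
    rw [dotProduct_smul, smul_eq_mul] at f2
    exact ⟨(mul_eq_zero.1 f1).resolve_left (by simpa using ht),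
      (mul_eq_zero.1 f2).resolve_left ht⟩
  have comb : σ β2 • w1 + (-σ β1) • w2 = (σ α1 * σ β2 - σ α2 * σ β1) • z := by
    funext i
    simp only [Pi.add_apply, Pi.smul_apply, smul_eq_mul, e1, e2]
    ring
  by_cases hδ : σ α1 * σ β2 - σ α2 * σ β1 = 0
  · rw [hδ, zero_smul] at comb
    obtain ⟨-, h1⟩ := hind _ _ comb
    have h1' : σ β1 = 0 := by simpa using h1
    have e : (1 : k) • w1 + (0 : k) • w2 = σ α1 • z := by
      funext i
      simp [e1, h1']
    refine fin 1 0 _ (fun h0 => ?_) e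
    exact one_ne_zero (hind 1 0 (by rw [e, h0, zero_smul])).1
  · exact fin _ _ _ hδ comb

theorem exists_g [IsAlgClosed k] (σ : k ≃+* k) (q : ℕ) (hσ : ∀ x, σ x = x ^ q) (hq : 2 ≤ q)
    (s0 : k) (hs0 : σ s0 ≠ s0) (hm : 4 ≤ Fintype.card ι) (z : ι → k)
    (hz : ∀ κ : k, (fun i => σ (σ (z i))) ≠ κ • z) (B : Finset (ι → k))
    (hB : ∀ c ∈ B, ∀ α : k, c ≠ α • fun i => σ.symm (z i)) :
    ∃ g : ι → k, hp σ g z = 0 ∧ hp σ g g = 0 ∧ ∀ c ∈ B, c ⬝ᵥ g ≠ 0 := by
  classical
  set ζ : ι → k := fun i => σ.symm (z i) with hζ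
  obtain ⟨h, hH, hh1, hh2⟩ : ∃ h : ι → k, hp σ h z = 0 ∧ (hp σ z z = 0 → h = z) ∧
      ∀ α : k, (fun i => σ (h i)) ≠ α • ζ := by
    by_cases hν : hp σ z z = 0
    · refine ⟨z, hν, fun _ => rfl, fun α e => hz (σ α) ?_⟩
      funext i
      have := congrArg σ (congrFun e i)
      simpa [hζ] using this
    · obtain ⟨h, h0, h1, -, -⟩ := exists_perp3 hm ζ 0 0
      have h1' := (dot_symm_eq_zero σ h z).1 h1
      refine ⟨h, h1', fun h => absurd h hν, fun α e => hν ?_⟩
      have hα : α ≠ 0 := by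
        rintro rfl
        apply h0
        funext i
        simpa using congrFun e i
      rw [hp_eq_dot, e, smul_dotProduct, smul_eq_mul] at h1'
      exact (dot_symm_eq_zero σ z z).1 ((mul_eq_zero.1 h1').resolve_left hα)
  let Φ : Option ((ι → k) ⊕ (ι → k)) → (ι → k) → k := fun x g =>
    match x with
    | none => hp σ h g
    | some (Sum.inl c) => c ⬝ᵥ g
    | some (Sum.inr c) => if c ⬝ᵥ h = 0 then 1 else
        hp σ ((c ⬝ᵥ h) • g - (c ⬝ᵥ g) • h) ((c ⬝ᵥ h) • g - (c ⬝ᵥ g) • h)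
  let T : Finset (Option ((ι → k) ⊕ (ι → k))) := Finset.insertNone (B.disjSum B)
  have hz0 : (0 : ι → k) ∈ {g : ι → k | hp σ g z = 0} := by simp [hp]
  obtain ⟨g0, hg0, hg0T⟩ := avoid {g : ι → k | hp σ g z = 0} Set.univ (T.card * (q + 1) + 1) (q + 1)
    (fun P hP _ => by
      by_contra hc
      push Not at hc
      exact hP (Polynomial.funext fun r => by simpa using hc r (Set.mem_univ _)))
    (fun u hu v hv s _ => by
      have hu' : hp σ u z = 0 := hu
      have hv' : hp σ v z = 0 := hv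
      change hp σ _ z = 0
      rw [hp_add_left, hp_smul_left, hp_sub_left, hu', hv']; ring)
    ⟨0, hz0⟩ Φ T
    (by
      rintro (_ | c | c) - u v
      · obtain ⟨P, hP, hP'⟩ := line_lin (q + 1) (by omega) (hp σ h u) (hp σ h v)
        exact ⟨P, hP, fun s => by rw [← hP']; simp [Φ, hp_add_right, hp_smul_right]⟩
      · obtain ⟨P, hP, hP'⟩ := line_lin (q + 1) (by omega) (c ⬝ᵥ u) (c ⬝ᵥ v)
        exact ⟨P, hP, fun s => by rw [← hP']; simp [Φ]⟩
      · by_cases hc : c ⬝ᵥ h = 0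
        · exact ⟨1, by simp, fun s => by simp [Φ, hc]⟩
        · obtain ⟨P, hP, hP'⟩ := line_hp σ q hσ ((c ⬝ᵥ h) • u - (c ⬝ᵥ u) • h)
            ((c ⬝ᵥ h) • v - (c ⬝ᵥ v) • h)
          refine ⟨P, hP, fun s => ?_⟩
          have e : (c ⬝ᵥ h) • (u + s • v) - (c ⬝ᵥ (u + s • v)) • h =
              (c ⬝ᵥ h) • u - (c ⬝ᵥ u) • h + s • ((c ⬝ᵥ h) • v - (c ⬝ᵥ v) • h) := by
            funext i
            simp only [Pi.add_apply, Pi.sub_apply, Pi.smul_apply, smul_eq_mul, dotProduct_add,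
              dotProduct_smul]
            ring
          rw [← hP', ← e]
          simp only [Φ, hc, if_false])
    (by
      rintro (_ | c | c) hx
      · by_contra hc
        push Not at hc
        obtain ⟨α, e⟩ := span1 ζ (fun i => σ (h i)) (fun w hw =>
          hc w ((dot_symm_eq_zero σ w z).1 hw))
        exact hh2 α e
      · by_contra hc
        push Not at hc
        obtain ⟨α, e⟩ := span1 ζ c (fun w hw => hc w ((dot_symm_eq_zero σ w z).1 hw))
        exact hB c (by simpa [T] using hx) α e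
      · by_cases hc : c ⬝ᵥ h = 0
        · exact ⟨0, hz0, by simp [Φ, hc]⟩
        · by_contra hcc
          push Not at hcc
          obtain ⟨k1, k2⟩ := lemK σ s0 hs0 hm z c (fun w h1 h2 => by
            have := hcc w h1
            simp only [Φ, hc, if_false, h2, zero_smul, sub_zero, hp_smul_left,
              hp_smul_right] at this
            have hc' : σ (c ⬝ᵥ h) ≠ 0 := by simpa using hc
            exact (mul_eq_zero.1 ((mul_eq_zero.1 this).resolve_left hc)).resolve_left hc')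
          exact hc (by rw [hh1 k1]; exact k2))
    (by omega)
  have hg0' : hp σ g0 z = 0 := hg0
  have h3 : hp σ h g0 ≠ 0 := hg0T none (by simp [T])
  set E : k[X] := C (hp σ h h) * X ^ (q + 1) + C (hp σ h g0) * X ^ q + C (hp σ g0 h) * X ^ 1 +
    C (hp σ g0 g0) with hE
  have hEq : E.coeff q = hp σ h g0 := by
    simp only [hE, coeff_add, coeff_C_mul, coeff_X_pow, coeff_C]
    rw [if_neg (by omega), if_pos trivial, if_neg (by omega), if_neg (by omega)]
    ring
  have hdeg : E.degree ≠ 0 := by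
    intro h0
    have := coeff_eq_zero_of_degree_lt (p := E) (n := q) (by rw [h0]; exact_mod_cast (by omega : 0 < q))
    exact h3 (hEq ▸ this)
  obtain ⟨l, hl⟩ := IsAlgClosed.exists_root E hdeg
  have hgg : hp σ (g0 + l • h) (g0 + l • h) = 0 := by
    have := hl.eq_zero
    simp only [hE, eval_add, eval_mul, eval_C, eval_pow, eval_X] at this
    simp only [hp_add_left, hp_add_right, hp_smul_left, hp_smul_right, hσ l]
    linear_combination this
  refine ⟨g0 + l • h, by rw [hp_add_left, hp_smul_left, hg0', hH]; ring, hgg, fun c hc h0 => ?_⟩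
  rw [dotProduct_add, dotProduct_smul, smul_eq_mul] at h0
  by_cases hch : c ⬝ᵥ h = 0
  · rw [hch, mul_zero, add_zero] at h0
    exact hg0T (some (Sum.inl c)) (by simp [T, hc]) h0
  · apply hg0T (some (Sum.inr c)) (by simp [T, hc])
    have e : (c ⬝ᵥ h) • g0 - (c ⬝ᵥ g0) • h = (c ⬝ᵥ h) • (g0 + l • h) := by
      funext i
      simp only [Pi.add_apply, Pi.sub_apply, Pi.smul_apply, smul_eq_mul]
      linear_combination (-h i) * h0
    simp only [Φ, hch, if_false]
    rw [e, hp_smul_left, hp_smul_right, hgg]; ring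

theorem moore (τ : k ≃+* k) (A B D x1 x2 x3 : k) (hA : A ≠ 0) (hx1 : x1 ≠ 0)
    (h1 : A * x1 + B * τ x1 + D * τ (τ x1) = 0) (h2 : A * x2 + B * τ x2 + D * τ (τ x2) = 0)
    (h3 : A * x3 + B * τ x3 + D * τ (τ x3) = 0) :
    ∃ c1 c2 c3 : k, τ c1 = c1 ∧ τ c2 = c2 ∧ τ c3 = c3 ∧ (c2 ≠ 0 ∨ c3 ≠ 0) ∧
      c1 * x1 + c2 * x2 + c3 * x3 = 0 := by
  have key : ∀ x : k, A * x + B * τ x + D * τ (τ x) = 0 →
      D * τ (τ x1) * τ (τ (x / x1) - x / x1) = A * x1 * (τ (x / x1) - x / x1) := by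
    intro x hx
    have e : x = x / x1 * x1 := (div_mul_cancel₀ _ hx1).symm
    generalize x / x1 = y at e
    subst e
    simp only [map_mul, map_sub] at hx ⊢
    linear_combination hx - τ y * h1
  have k2 := key x2 h2
  have k3 := key x3 h3
  have e2 : x2 = x2 / x1 * x1 := (div_mul_cancel₀ _ hx1).symm
  have e3 : x3 = x3 / x1 * x1 := (div_mul_cancel₀ _ hx1).symm
  generalize x2 / x1 = y2 at k2 e2
  generalize x3 / x1 = y3 at k3 e3
  by_cases hw : τ y2 - y2 = 0
  · exact ⟨y2, -1, 0, sub_eq_zero.1 hw, by simp, by simp, Or.inl (by simp), by rw [e2]; ring⟩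
  · set w2 := τ y2 - y2 with hw2
    set w3 := τ y3 - y3 with hw3
    have hD : D * τ (τ x1) ≠ 0 := by
      intro h0
      rw [h0, zero_mul] at k2
      exact mul_ne_zero (mul_ne_zero hA hx1) hw k2.symm
    have hτw : τ w2 ≠ 0 := by simpa using hw
    have hc : τ (w3 / w2) = w3 / w2 := by
      rw [map_div₀, div_eq_div_iff hτw hw]
      have : D * τ (τ x1) * (τ w3 * w2 - w3 * τ w2) = 0 := by
        linear_combination w2 * k3 - w3 * k2
      exact sub_eq_zero.1 ((mul_eq_zero.1 this).resolve_left hD)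
    have hcw : w3 / w2 * w2 = w3 := div_mul_cancel₀ _ hw
    generalize w3 / w2 = c at hc hcw
    refine ⟨y3 - c * y2, c, -1, ?_, hc, by simp, Or.inr (by simp), by rw [e2, e3]; ring⟩
    rw [map_sub, map_mul, hc]
    linear_combination hw3.symm - hcw - c * hw2.symm

theorem frame_nonrat [IsAlgClosed k] (σ : k ≃+* k) (q N : ℕ) (hσ : ∀ x, σ x = x ^ q) (hq : 2 ≤ q)
    (hm : 4 ≤ Fintype.card ι) (s0 : k) (hs0 : σ s0 ≠ s0)
    (hS : ∀ P : k[X], P ≠ 0 → P.natDegree < N → ∃ s : k, σ (σ s) = s ∧ P.eval s ≠ 0)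
    (hN : (Fintype.card ι * Fintype.card ι + 1) * (q + 1) < N)
    (hfin : {s : k | σ (σ s) = s}.Finite)
    (z : ι → k) (hz : ∀ κ : k, (fun i => σ (σ (z i))) ≠ κ • z) :
    ∃ d b a : ι → k, IsFrame σ z d b a := by
  classical
  have hfin' : {c : ι → k | ∀ i, c i ∈ {s : k | σ (σ s) = s}}.Finite := Set.Finite.pi' fun _ => hfin
  obtain ⟨g, hgz, hgg, hgB⟩ := exists_g σ q hσ hq s0 hs0 hm z hz
    (insert (fun i => σ (z i)) (hfin'.toFinset.erase 0)) (by
      intro c hc α e
      rcases Finset.mem_insert.1 hc with rfl | hc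
      · apply hz (σ α)
        funext i
        have := congrArg σ (congrFun e i)
        simpa using this
      · obtain ⟨hc0, hc1⟩ := Finset.mem_erase.1 hc
        have hc2 : ∀ i, σ (σ (c i)) = c i := by simpa using hc1
        have hα : α ≠ 0 := by
          rintro rfl
          exact hc0 (by simpa using e)
        have hα' : σ (σ (σ α)) ≠ 0 := by simpa using hα
        apply hz (σ α / σ (σ (σ α)))
        funext i
        have h1 := congrArg σ (hc2 i)
        rw [congrFun e i] at h1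
        simp only [Pi.smul_apply, smul_eq_mul, map_mul, RingEquiv.apply_symm_apply] at h1 ⊢
        field_simp
        linear_combination h1)
  have hzg : hp σ z g ≠ 0 := hgB _ (Finset.mem_insert_self _ _)
  have hind : ∀ c : ι → k, (∀ i, σ (σ (c i)) = c i) → c ⬝ᵥ g = 0 → c = 0 := by
    intro c hc h0
    by_contra hc0
    exact hgB c (Finset.mem_insert_of_mem (Finset.mem_erase.2 ⟨hc0, by simpa using hc⟩)) h0
  have hind3 : ∀ i j l : ι, j ≠ i → l ≠ i → l ≠ j → ∀ c1 c2 c3 : k, σ (σ c1) = c1 → σ (σ c2) = c2 →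
      σ (σ c3) = c3 → c1 * g i + c2 * g j + c3 * g l = 0 → c1 = 0 ∧ c2 = 0 ∧ c3 = 0 := by
    intro i j l hji hli hlj c1 c2 c3 h1 h2 h3 h
    have := hind (Pi.single i c1 + Pi.single j c2 + Pi.single l c3) (fun x => by
      simp only [Pi.add_apply, map_add, Pi.single_apply]
      split_ifs <;> simp [h1, h2, h3]) (by simpa [add_dotProduct] using h)
    have t1 := congrFun this i
    have t2 := congrFun this j
    have t3 := congrFun this l
    simp only [Pi.add_apply, Pi.single_apply, Pi.zero_apply, if_true, hji, hli, hlj, hji.symm,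
      hli.symm, hlj.symm, if_false, add_zero, zero_add] at t1 t2 t3
    exact ⟨t1, t2, t3⟩
  have hg0 : ∀ i, g i ≠ 0 := by
    intro i h
    obtain ⟨j, hj, -, -⟩ := exists_other hm i i i
    obtain ⟨l, hl, hl', -⟩ := exists_other hm i j j
    exact one_ne_zero (hind3 i j l hj hl hl' 1 0 0 (by simp) (by simp) (by simp) (by simp [h])).1
  set W : Set (ι → k) := {d | hp σ g d = 0 ∧ hp σ d g = 0 ∧ hp σ z d = 0} with hW
  have hL : ∀ i j, i ≠ j → ∃ d ∈ W, d i * g j ≠ d j * g i := by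
    intro i j hij
    by_contra hc
    push Not at hc
    obtain ⟨α, β, γ, e⟩ := span3 (fun x => σ (g x)) (fun x => σ.symm (g x)) (fun x => σ (z x))
      (Pi.single i (g j) - Pi.single j (g i)) (fun w h1 h2 h3 => by
        have := hc w ⟨h1, (dot_symm_eq_zero σ w g).1 h2, h3⟩
        simp only [sub_dotProduct, single_dotProduct]
        linear_combination this)
    have hγ : γ = 0 := by
      have e1 := congrArg (fun v => v ⬝ᵥ g) e
      simp only [sub_dotProduct, single_dotProduct, add_dotProduct, smul_dotProduct,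
        smul_eq_mul, (dot_symm_eq_zero σ g g).2 hgg, ← hp_eq_dot, hgg] at e1
      have : γ * hp σ z g = 0 := by linear_combination -e1
      exact (mul_eq_zero.1 this).resolve_right hzg
    obtain ⟨x, hxi, hxj, -⟩ := exists_other hm i j j
    obtain ⟨y, hyi, hyj, hyx⟩ := exists_other hm i j x
    have ex : ∀ t, t ≠ i → t ≠ j → σ α * σ (σ (g t)) + σ β * g t = 0 := by
      intro t h1 h2
      have := congrArg σ (congrFun e t)
      simpa [Pi.single_eq_of_ne h1, Pi.single_eq_of_ne h2, hγ] using this.symm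
    have hα : σ α ≠ 0 := by
      intro h0
      have h1 := ex x hxi hxj
      rw [h0, zero_mul, zero_add] at h1
      have hβ : β = 0 := by simpa [hg0 x] using h1
      have hα0 : α = 0 := by simpa using h0
      have := congrFun e i
      simp [hα0, hβ, hγ, Pi.single_eq_of_ne hij, hg0 j] at this
    have hyy : σ (σ (g y)) ≠ 0 := by simpa using hg0 y
    have hc' : σ (σ (g x / g y)) = g x / g y := by
      rw [map_div₀, map_div₀, div_eq_div_iff hyy (hg0 y)]
      have : σ α * (σ (σ (g x)) * g y - g x * σ (σ (g y))) = 0 := by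
        linear_combination g y * ex x hxi hxj - g x * ex y hyi hyj
      exact sub_eq_zero.1 ((mul_eq_zero.1 this).resolve_left hα)
    have := (hind3 i x y hxi hyi hyx 0 (-1) (g x / g y) (by simp) (by simp) hc'
      (by rw [div_mul_cancel₀ _ (hg0 y)]; ring)).2.1
    simp at this
  have h0 : ∃ d ∈ W, hp σ d d ≠ 0 := by
    by_contra hc
    push Not at hc
    set V : Set (ι → k) := {d | hp σ g d = 0 ∧ hp σ d g = 0} with hV
    have hpol := polar σ V s0 hs0
      (fun u hu v hv => ⟨by rw [hp_add_right, hu.1, hv.1, add_zero],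
        by rw [hp_add_left, hu.2, hv.2, add_zero]⟩)
      (fun u hu => ⟨by rw [hp_smul_right, hu.1, mul_zero], by rw [hp_smul_left, hu.2, mul_zero]⟩)
      (fun u hu => by
        have := hc (u - (hp σ z u / hp σ z g) • g)
          ⟨by rw [hp_sub_right, hp_smul_right, hu.1, hgg]; ring,
            by rw [hp_sub_left, hp_smul_left, hu.2, hgg]; ring,
            by rw [hp_sub_right, hp_smul_right, div_mul_cancel₀ _ hzg, sub_self]⟩
        simpa [hp_sub_left, hp_sub_right, hp_smul_left, hp_smul_right, hu.1, hu.2, hgg] using this)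
    obtain ⟨w, hw, hwg⟩ : ∃ w ∈ V, ∀ t : k, w ≠ t • g := by
      obtain ⟨w1, w2, a1, b1, a2, b2, hi⟩ := exists_perp2 hm (fun x => σ (g x))
        (fun x => σ.symm (g x))
      by_contra hc2
      push Not at hc2
      obtain ⟨t1, e1⟩ := hc2 w1 ⟨a1, (dot_symm_eq_zero σ w1 g).1 b1⟩
      obtain ⟨t2, e2⟩ := hc2 w2 ⟨a2, (dot_symm_eq_zero σ w2 g).1 b2⟩
      have h1 := hi t2 (-t1) (by rw [e1, e2, smul_smul, smul_smul, ← add_smul]; simp [mul_comm])
      have h2 : t1 = 0 := by simpa using h1.2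
      have := hi 1 0 (by simp [e1, h2])
      exact one_ne_zero this.1
    obtain ⟨α, β, e⟩ := span2 (fun x => σ (g x)) (fun x => σ.symm (g x)) (fun x => σ (w x))
      (fun w' h1 h2 => hpol w hw w' ⟨h1, (dot_symm_eq_zero σ w' g).1 h2⟩)
    obtain ⟨α', β', e'⟩ := span2 (fun x => σ (g x)) (fun x => σ.symm (g x)) (fun x => σ.symm (w x))
      (fun w' h1 h2 => (dot_symm_eq_zero σ w' w).2
        (hpol w' ⟨h1, (dot_symm_eq_zero σ w' g).1 h2⟩ w hw))
    have hβ : σ β ≠ 0 := by
      intro h0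
      have hβ0 : β = 0 := by simpa using h0
      apply hwg (σ.symm α)
      funext x
      have := congrArg σ.symm (congrFun e x)
      simpa [hβ0] using this
    have rel : ∀ x, σ β * g x + (σ α - σ (σ (σ β'))) * (σ.trans σ) (g x) +
        (-σ (σ (σ α'))) * (σ.trans σ) ((σ.trans σ) (g x)) = 0 := by
      intro x
      have f1 := congrArg σ (congrFun e x)
      have f2 := congrArg (fun t => σ (σ (σ t))) (congrFun e' x)
      simp only [Pi.add_apply, Pi.smul_apply, smul_eq_mul, map_add, map_mul,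
        RingEquiv.apply_symm_apply, RingEquiv.trans_apply] at f1 f2 ⊢
      linear_combination f2 - f1
    obtain ⟨i⟩ : Nonempty ι := Fintype.card_pos_iff.1 (by omega)
    obtain ⟨j, hj, -, -⟩ := exists_other hm i i i
    obtain ⟨l, hl, hl', -⟩ := exists_other hm i j j
    obtain ⟨c1, c2, c3, h1, h2, h3, h4, h5⟩ :=
      moore (σ.trans σ) _ _ _ _ _ _ hβ (hg0 i) (rel i) (rel j) (rel l)
    obtain ⟨-, t2, t3⟩ := hind3 i j l hj hl hl' c1 c2 c3 h1 h2 h3 h5
    rcases h4 with h4 | h4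
    · exact h4 t2
    · exact h4 t3
  obtain ⟨d, hd, hdd, hdg⟩ := pick_d σ q N hσ hS hN W
    (fun u hu v hv s _ =>
      ⟨by rw [hp_add_right, hp_smul_right, hp_sub_right, hu.1, hv.1]; ring,
        by rw [hp_add_left, hp_smul_left, hp_sub_left, hu.2.1, hv.2.1]; ring,
        by rw [hp_add_right, hp_smul_right, hp_sub_right, hu.2.2, hv.2.2]; ring⟩) g h0 hL
  have hc' : -hp σ d d / hp σ z g ≠ 0 := div_ne_zero (neg_ne_zero.2 hdd) hzg
  refine ⟨d, (-hp σ d z / hp σ z g) • g, (-hp σ d d / hp σ z g) • g,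
    fun i => mul_ne_zero hc' (hg0 i), fun i j hij e => hdg i j hij ?_, hdd, hd.2.2, ?_, ?_, ?_, ?_,
    ?_, ?_, ?_, ?_, ?_, ?_, ?_⟩
  · simp only [Pi.smul_apply, smul_eq_mul] at e
    have : -hp σ d d / hp σ z g * (d i * g j - d j * g i) = 0 := by linear_combination e
    exact sub_eq_zero.1 ((mul_eq_zero.1 this).resolve_left hc')
  all_goals simp only [hp_smul_left, hp_smul_right, hd.1, hd.2.1, hgz, hgg, mul_zero, add_zero,
    div_mul_cancel₀ _ hzg, add_neg_cancel]

end Pool.Agent.MP_776d16_ag.H36
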