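import Mathlib

namespace Pool.Agent.MP_776d16_ag.H36

open Polynomial

variable {k : Type*} [Field k] {ι : Type*}

/-- The polynomial `z + d t + b t^q + a t^(q+1)`. -/
noncomputable def fr (q : ℕ) (z d b a : k) : k[X] :=
  C z + C d * X + C b * X ^ q + C a * X ^ (q + 1)

theorem fr_natDegree {q : ℕ} (hq : 1 ≤ q) (z d b : k) {a : k} (ha : a ≠ 0) :
    (fr q z d b a).natDegree = q + 1 := by
  unfold fr
  rw [natDegree_add_eq_right_of_natDegree_lt]
  · rw [natDegree_C_mul_X_pow _ _ ha]
  · rw [natDegree_C_mul_X_pow _ _ ha]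
    refine lt_of_le_of_lt (natDegree_add_le _ _) (max_lt (lt_of_le_of_lt (natDegree_add_le _ _)
      (max_lt (by simp) ?_)) ?_)
    · refine lt_of_le_of_lt (natDegree_C_mul_le _ _) ?_
      rw [natDegree_X]; omega
    · refine lt_of_le_of_lt (natDegree_C_mul_le _ _) ?_
      rw [natDegree_X_pow]; omega

theorem fr_ne_zero {q : ℕ} (hq : 1 ≤ q) (z d b : k) {a : k} (ha : a ≠ 0) :
    fr q z d b a ≠ 0 := by
  intro h
  have := fr_natDegree hq z d b ha
  rw [h] at this
  simp at this

theorem fr_pow (p e : ℕ) [ExpChar k p] (z d b a : k) :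
    fr (p ^ e) z d b a ^ (p ^ e) =
      C (z ^ p ^ e) + C (d ^ p ^ e) * X ^ (p ^ e) + C (b ^ p ^ e) * X ^ (p ^ e * p ^ e) +
        C (a ^ p ^ e) * X ^ (p ^ e * p ^ e + p ^ e) := by
  unfold fr
  rw [add_pow_expChar_pow, add_pow_expChar_pow, add_pow_expChar_pow]
  simp only [mul_pow, ← C_pow, ← pow_mul]
  rw [add_mul, one_mul]

theorem prod_mem_pair {R : Type*} [CommRing R] [DecidableEq ι] (s : Finset ι) (g : R) (f w : ι → R)
    (hw : ∀ j ∈ s, ∃ u v, w j = u * g + v * f j) :
    ∃ u v, ∏ j ∈ s, w j = u * g + v * ∏ j ∈ s, f j := by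
  induction s using Finset.induction_on with
  | empty => exact ⟨0, 1, by simp⟩
  | insert j s hj ih =>
    obtain ⟨u, v, h⟩ := ih (fun i hi => hw i (Finset.mem_insert_of_mem hi))
    obtain ⟨u', v', h'⟩ := hw j (Finset.mem_insert_self _ _)
    refine ⟨u' * (u * g + v * ∏ j ∈ s, f j) + v' * f j * u, v' * v, ?_⟩
    rw [Finset.prod_insert hj, Finset.prod_insert hj, h, h']
    ring

theorem prod_dvd_of_pair [DecidableEq ι] (M : ℕ) (f : ι → k[X]) (Ψ : k[X]) (hΨ : ∀ i, f i ∣ Ψ)
    (hw : ∀ i j, i ≠ j → ∃ w u v : k[X], w ≠ 0 ∧ w.natDegree ≤ M ∧ w = u * f i + v * f j)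
    (s : Finset ι) :
    ∃ W : k[X], W ≠ 0 ∧ W.natDegree ≤ s.card * s.card * M ∧ ∏ i ∈ s, f i ∣ Ψ * W := by
  induction s using Finset.induction_on with
  | empty => exact ⟨1, one_ne_zero, by simp, by simp⟩
  | insert a s ha ih =>
    obtain ⟨W, hW0, hWd, hW⟩ := ih
    have h1 : ∀ j : ι, ∃ w : k[X], w ≠ 0 ∧ w.natDegree ≤ M ∧
        (j ∈ s → ∃ u v, w = u * f a + v * f j) := by
      intro j
      by_cases hj : j ∈ s
      · obtain ⟨w, u, v, h0, h1, h2⟩ := hw a j (fun h => ha (h ▸ hj))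
        exact ⟨w, h0, h1, fun _ => ⟨u, v, h2⟩⟩
      · exact ⟨1, one_ne_zero, by simp, fun h => absurd h hj⟩
    choose w hw0 hwd hw' using h1
    obtain ⟨u, v, huv⟩ := prod_mem_pair s (f a) f w hw'
    refine ⟨W * ∏ j ∈ s, w j, mul_ne_zero hW0 (Finset.prod_ne_zero_iff.2 fun j _ => hw0 j), ?_, ?_⟩
    · have h2 : (∏ j ∈ s, w j).natDegree ≤ s.card * M := by
        refine (natDegree_prod_le _ _).trans ?_
        simpa using Finset.sum_le_card_nsmul s _ M (fun j _ => hwd j)
      have h3 := natDegree_mul_le (p := W) (q := ∏ j ∈ s, w j)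
      rw [Finset.card_insert_of_notMem ha]
      nlinarith
    · rw [Finset.prod_insert ha, huv]
      obtain ⟨c, hc⟩ := hW
      obtain ⟨c', hc'⟩ := hΨ a
      refine ⟨u * c + v * c' * W, ?_⟩
      calc Ψ * (W * (u * f a + v * ∏ j ∈ s, f j))
          = u * f a * (Ψ * W) + v * (∏ j ∈ s, f j) * W * Ψ := by ring
        _ = u * f a * ((∏ j ∈ s, f j) * c) + v * (∏ j ∈ s, f j) * W * (f a * c') := by
          rw [← hc, ← hc']
        _ = _ := by ring

/-- Two frame polynomials generate an ideal containing a nonzero polynomial of degree two. -/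
theorem fr_pair (q : ℕ) (z d b a z' d' b' a' : k) (h : d * a' ≠ d' * a) (n n' : ℕ)
    (hn : n ≤ q + 1) (hn' : n' ≤ q + 1) :
    ∃ w u v : k[X], w ≠ 0 ∧ w.natDegree ≤ 4 * (q + 1) ∧
      w = u * fr q z d b a ^ n + v * fr q z' d' b' a' ^ n' := by
  set w0 : k[X] := C (d * a' - d' * a) * X ^ 2 + C (z * a' + d * b' - z' * a - d' * b) * X +
    C (z * b' - z' * b) with hw0
  have e : w0 = (C b' + C a' * X) * fr q z d b a + (-(C b + C a * X)) * fr q z' d' b' a' := by
    simp only [hw0, fr, C_sub, C_add, C_mul]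
    ring
  have hd : w0.natDegree = 2 := natDegree_quadratic (sub_ne_zero.2 h)
  have h0 : w0 ≠ 0 := by
    intro h0; rw [h0] at hd; simp at hd
  have hmem : w0 ^ (2 * (q + 1)) ∈
      Ideal.span {fr q z d b a ^ n, fr q z' d' b' a' ^ n'} := by
    rw [e]
    refine Ideal.add_pow_mem_of_pow_mem_of_le _ (m := n) (n := n') ?_ ?_ (by omega)
    · rw [mul_pow]
      exact Ideal.mul_mem_left _ _ (Ideal.subset_span (by simp))
    · rw [mul_pow]
      exact Ideal.mul_mem_left _ _ (Ideal.subset_span (by simp))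
  obtain ⟨u, v, huv⟩ := Ideal.mem_span_pair.1 hmem
  refine ⟨_, u, v, pow_ne_zero _ h0, ?_, huv.symm⟩
  rw [natDegree_pow, hd]; omega

/-- Splitting off the gap. -/
theorem gap_split {q n : ℕ} (hn1 : 1 ≤ n) (hn : n ≤ q + 1) (F ψ : k[X])
    (hF : F.natDegree ≤ q + 1)
    (hgap : ∀ r, (q + 1) * (q + 1) ≤ r + (q + 1) * n → r < q * q + 2 * q →
      (ψ * F ^ (q + 1 - n)).coeff r = 0) :
    (∀ r, q * q + q ≤ r → r < q * q + 2 * q → (ψ * F ^ q).coeff r = 0) ∧
      ∃ Cc : k[X], ∀ r, (ψ * F ^ q).coeff (r + (q * q + 2 * q)) = (F ^ (n - 1) * Cc).coeff r := by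
  set B := q * q + 2 * q with hB
  set P := ψ * F ^ (q + 1 - n) with hP
  have hm : (X ^ B : k[X]).Monic := monic_X_pow B
  set A := P %ₘ X ^ B with hA
  set Cc := P /ₘ X ^ B with hC
  have hsplit : A + X ^ B * Cc = P := modByMonic_add_div P _
  have hAlt : A.degree < B := by
    have := degree_modByMonic_lt P hm
    rwa [degree_X_pow] at this
  have hAc : ∀ r, (q + 1) * (q + 1) ≤ r + (q + 1) * n → A.coeff r = 0 := by
    intro r hr
    by_cases hrB : r < B
    · have h1 := hgap r hr hrB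
      rw [← hsplit, coeff_add, coeff_X_pow_mul', if_neg (by omega), add_zero] at h1
      exact h1
    · exact coeff_eq_zero_of_degree_lt (lt_of_lt_of_le hAlt (by exact_mod_cast not_lt.1 hrB))
  have hlow : ∀ r, q * q + q ≤ r → (A * F ^ (n - 1)).coeff r = 0 := by
    intro r hr
    rw [coeff_mul]
    refine Finset.sum_eq_zero fun x hx => ?_
    have hx' : x.1 + x.2 = r := by simpa using hx
    by_cases h : (q + 1) * (q + 1) ≤ x.1 + (q + 1) * n
    · rw [hAc _ h, zero_mul]
    · have hd : (F ^ (n - 1)).natDegree < x.2 := by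
        refine lt_of_le_of_lt (natDegree_pow_le.trans (Nat.mul_le_mul_left _ hF)) ?_
        obtain ⟨n', rfl⟩ : ∃ n', n = n' + 1 := ⟨n - 1, by omega⟩
        simp only [Nat.add_sub_cancel]
        nlinarith
      rw [coeff_eq_zero_of_natDegree_lt hd, mul_zero]
  have hmul : ψ * F ^ q = A * F ^ (n - 1) + X ^ B * (F ^ (n - 1) * Cc) := by
    have : F ^ q = F ^ (q + 1 - n) * F ^ (n - 1) := by
      rw [← pow_add]; congr 1; omega
    rw [this, ← mul_assoc, ← hP, ← hsplit]; ring
  refine ⟨fun r h1 h2 => ?_, Cc, fun r => ?_⟩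
  · rw [hmul, coeff_add, hlow r h1, coeff_X_pow_mul', if_neg (by omega), add_zero]
  · rw [hmul, coeff_add, hlow _ (by omega), coeff_X_pow_mul, zero_add]

theorem coeff_mul_four (ψ : k[X]) (z d b a : k) (q r : ℕ) :
    (ψ * (C z + C d * X ^ q + C b * X ^ (q * q) + C a * X ^ (q * q + q))).coeff (r + (q * q + q)) =
      z * ψ.coeff (r + (q * q + q)) + d * ψ.coeff (r + q * q) + b * ψ.coeff (r + q) +
        a * ψ.coeff r := by
  have e : ψ * (C z + C d * X ^ q + C b * X ^ (q * q) + C a * X ^ (q * q + q)) =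
      C z * ψ + C d * (ψ * X ^ q) + C b * (ψ * X ^ (q * q)) + C a * (ψ * X ^ (q * q + q)) := by
    ring
  rw [e]
  simp only [coeff_add, coeff_C_mul]
  rw [coeff_mul_X_pow ψ (q * q + q) r]
  have e1 : r + (q * q + q) = (r + q * q) + q := by ring
  have e2 : r + (q * q + q) = (r + q) + q * q := by ring
  have h1 : (ψ * X ^ q).coeff (r + (q * q + q)) = ψ.coeff (r + q * q) := by
    rw [e1, coeff_mul_X_pow]
  have h2 : (ψ * X ^ (q * q)).coeff (r + (q * q + q)) = ψ.coeff (r + q) := by
    rw [e2, coeff_mul_X_pow]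
  rw [h1, h2]

theorem coeff_divX_iter (ψ : k[X]) (s r : ℕ) : (divX^[s] ψ).coeff r = ψ.coeff (r + s) := by
  induction s generalizing r with
  | zero => simp
  | succ s ih => rw [Function.iterate_succ_apply', coeff_divX, ih]; congr 1; ring

/-- The dual form of very-freeness. -/
theorem core [Fintype ι] [DecidableEq ι] (p e : ℕ) [ExpChar k p] (q : ℕ) (hqe : q = p ^ e)
    (hq : 1 ≤ q) (z d b a : ι → k) (n : ι → ℕ) (hn1 : ∀ i, 1 ≤ n i) (hn : ∀ i, n i ≤ q + 1)
    (ha : ∀ i, a i ≠ 0) (hda : ∀ i j, i ≠ j → d i * a j ≠ d j * a i)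
    (hza : ∑ i, z i ^ q * a i ≠ 0) (hda0 : ∑ i, d i ^ q * a i = 0)
    (hba : ∑ i, b i ^ q * a i = 0) (haa : ∑ i, a i ^ q * a i = 0)
    (hdd : ∑ i, d i ^ q * d i ≠ 0)
    (hbd : ∑ i, b i ^ q * d i = 0) (had : ∑ i, a i ^ q * d i = 0)
    (hbig : q * q + (q + 1) * (2 * Fintype.card ι + 4 * (Fintype.card ι * Fintype.card ι)) ≤
      (q + 1) * ∑ i, n i)
    (ψ : k[X]) (hψ : ∀ r, q * q + 2 * q ≤ r → ψ.coeff r = 0)
    (hgap : ∀ i r, (q + 1) * (q + 1) ≤ r + (q + 1) * n i → r < q * q + 2 * q →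
      (ψ * fr q (z i) (d i) (b i) (a i) ^ (q + 1 - n i)).coeff r = 0) : ψ = 0 := by
  by_contra hψ0
  set F : ι → k[X] := fun i => fr q (z i) (d i) (b i) (a i) with hF
  have hFd : ∀ i, (F i).natDegree = q + 1 := fun i => fr_natDegree hq _ _ _ (ha i)
  have hF0 : ∀ i, F i ≠ 0 := fun i => fr_ne_zero hq _ _ _ (ha i)
  have hs := fun i => gap_split (hn1 i) (hn i) (F i) ψ (hFd i).le (hgap i)
  have hc : ∀ i r, (ψ * F i ^ q).coeff (r + (q * q + q)) =
      z i ^ q * ψ.coeff (r + (q * q + q)) + d i ^ q * ψ.coeff (r + q * q) +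
        b i ^ q * ψ.coeff (r + q) + a i ^ q * ψ.coeff r := by
    intro i r
    have := fr_pow p e (z i) (d i) (b i) (a i)
    rw [← hqe] at this
    simp only [hF]
    rw [this, coeff_mul_four]
  have hg : ∀ i r, r < q → z i ^ q * ψ.coeff (r + (q * q + q)) + d i ^ q * ψ.coeff (r + q * q) +
        b i ^ q * ψ.coeff (r + q) + a i ^ q * ψ.coeff r = 0 := by
    intro i r hr
    rw [← hc]
    exact (hs i).1 _ (by omega) (by omega)
  have pair : ∀ (y : ι → k) r, r < q →
      (∑ i, z i ^ q * y i) * ψ.coeff (r + (q * q + q)) + (∑ i, d i ^ q * y i) * ψ.coeff (r + q * q) +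
        (∑ i, b i ^ q * y i) * ψ.coeff (r + q) + (∑ i, a i ^ q * y i) * ψ.coeff r = 0 := by
    intro y r hr
    simp only [Finset.sum_mul, ← Finset.sum_add_distrib]
    refine Finset.sum_eq_zero fun i _ => ?_
    linear_combination y i * hg i r hr
  have t1 : ∀ r, r < q → ψ.coeff (r + (q * q + q)) = 0 := by
    intro r hr
    have := pair a r hr
    rw [hda0, hba, haa] at this
    simpa [hza] using this
  have t2 : ∀ r, r < q → ψ.coeff (r + q * q) = 0 := by
    intro r hr
    have := pair d r hr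
    rw [t1 r hr, hbd, had] at this
    simpa [hdd] using this
  have top : ∀ r, q * q ≤ r → ψ.coeff r = 0 := by
    intro r hr
    by_cases h1 : r < q * q + q
    · have := t2 (r - q * q) (by omega)
      rwa [Nat.sub_add_cancel hr] at this
    · by_cases h2 : r < q * q + 2 * q
      · have := t1 (r - (q * q + q)) (by omega)
        rwa [Nat.sub_add_cancel (by omega)] at this
      · exact hψ r (by omega)
  have hg' : ∀ i r, r < q → b i ^ q * ψ.coeff (r + q) + a i ^ q * ψ.coeff r = 0 := by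
    intro i r hr
    have := hg i r hr
    rw [t1 r hr, t2 r hr] at this
    simpa using this
  set φ := divX^[q] ψ with hφ
  set φ2 := divX^[2 * q] ψ with hφ2
  have hH : ∀ i, F i ^ (n i - 1) ∣ C (b i ^ q) * φ2 + C (a i ^ q) * φ := by
    intro i
    obtain ⟨Cc, hCc⟩ := (hs i).2
    refine ⟨Cc, ?_⟩
    ext r
    rw [← hCc r]
    have e1 : r + (q * q + 2 * q) = (r + q) + (q * q + q) := by ring
    rw [e1, hc, top _ (by omega), top _ (by omega), coeff_add, coeff_C_mul, coeff_C_mul, hφ, hφ2,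
      coeff_divX_iter, coeff_divX_iter]
    have e2 : r + q + q = r + 2 * q := by ring
    rw [e2]; ring
  have hφd : ∀ s, (divX^[s] ψ).natDegree < q * q := by
    intro s
    have : 0 < q * q := Nat.mul_pos hq hq
    have h : (divX^[s] ψ).natDegree ≤ q * q - 1 := by
      rw [natDegree_le_iff_coeff_eq_zero]
      intro N hN
      rw [coeff_divX_iter]
      exact top _ (by omega)
    omega
  obtain ⟨Ψ, hΨ0, hΨd, hΨ⟩ : ∃ Ψ : k[X], Ψ ≠ 0 ∧ Ψ.natDegree < q * q + Fintype.card ι * q ∧
      ∀ i, F i ^ (n i - 1) ∣ Ψ := by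
    by_cases hcase : ∃ j, j < q ∧ ψ.coeff (j + q) ≠ 0
    · obtain ⟨j, hj, hj0⟩ := hcase
      set κ := -ψ.coeff j / ψ.coeff (j + q) with hκ
      have hb : ∀ i, b i ^ q = κ * a i ^ q := by
        intro i
        have := hg' i j hj
        rw [hκ]
        field_simp
        linear_combination this
      have hφ0 : φ ≠ 0 := by
        intro h
        have := coeff_divX_iter ψ q j
        rw [← hφ, h] at this
        exact hj0 (by simpa using this.symm)
      refine ⟨C κ * φ2 + φ, ?_, ?_, fun i => ?_⟩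
      · intro h
        have h1 := congrArg (fun P => P.coeff φ.natDegree) h
        have h2 : φ2.coeff φ.natDegree = 0 := by
          have h3 : φ.coeff (φ.natDegree + q) = 0 := coeff_eq_zero_of_natDegree_lt (by omega)
          rw [hφ, coeff_divX_iter] at h3
          rw [hφ2, coeff_divX_iter, ← h3]
          congr 1; ring
        simp only [coeff_add, coeff_C_mul, h2, mul_zero, zero_add, coeff_zero] at h1
        exact hφ0 (leadingCoeff_eq_zero.1 h1)
      · refine lt_of_le_of_lt (natDegree_add_le _ _) (max_lt ?_ ?_)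
        · exact lt_of_le_of_lt (natDegree_C_mul_le _ _) (lt_of_lt_of_le (hφd _) (by omega))
        · exact lt_of_lt_of_le (hφd _) (by omega)
      · have h1 := hH i
        have h2 : C (b i ^ q) * φ2 + C (a i ^ q) * φ = C (a i ^ q) * (C κ * φ2 + φ) := by
          rw [hb i, C_mul]; ring
        rw [h2] at h1
        exact (isUnit_C.2 (pow_ne_zero q (ha i)).isUnit).dvd_mul_left.1 h1
    · push Not at hcase
      have hne : Nonempty ι := by
        by_contra h
        rw [not_nonempty_iff] at h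
        simp at hza
      obtain ⟨i0⟩ := hne
      have hlow : ∀ j, j < q → ψ.coeff j = 0 := by
        intro j hj
        have := hg' i0 j hj
        rw [hcase j hj] at this
        simpa [ha i0] using this
      have hφe : φ = X ^ q * φ2 := by
        ext r
        rw [coeff_X_pow_mul', hφ, hφ2, coeff_divX_iter]
        split_ifs with h
        · rw [coeff_divX_iter]; congr 1; omega
        · exact hcase r (by omega)
      have hφ20 : φ2 ≠ 0 := by
        intro h
        apply hψ0
        ext r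
        by_cases h1 : r < q
        · simpa using hlow r h1
        · have h2 := coeff_divX_iter ψ q (r - q)
          rw [← hφ, hφe, h, mul_zero, Nat.sub_add_cancel (by omega)] at h2
          exact h2.symm
      have hV : ∀ i, (C (b i ^ q) + C (a i ^ q) * X ^ q : k[X]).natDegree = q := by
        intro i
        rw [natDegree_add_eq_right_of_natDegree_lt]
        · rw [natDegree_C_mul_X_pow _ _ (pow_ne_zero q (ha i))]
        · rw [natDegree_C_mul_X_pow _ _ (pow_ne_zero q (ha i)), natDegree_C]; omega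
      have hV0 : ∀ i, (C (b i ^ q) + C (a i ^ q) * X ^ q : k[X]) ≠ 0 := by
        intro i h
        have := hV i
        rw [h] at this
        simp at this; omega
      refine ⟨φ2 * ∏ i, (C (b i ^ q) + C (a i ^ q) * X ^ q),
        mul_ne_zero hφ20 (Finset.prod_ne_zero_iff.2 fun i _ => hV0 i), ?_, fun i => ?_⟩
      · refine lt_of_le_of_lt natDegree_mul_le ?_
        rw [natDegree_prod _ _ fun i _ => hV0 i]
        simp only [hV, Finset.sum_const, Finset.card_univ, smul_eq_mul]
        have := hφd (2 * q)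
        rw [← hφ2] at this
        omega
      · have h1 := hH i
        have h2 : C (b i ^ q) * φ2 + C (a i ^ q) * φ = φ2 * (C (b i ^ q) + C (a i ^ q) * X ^ q) := by
          rw [hφe]; ring
        rw [h2] at h1
        exact h1.trans (mul_dvd_mul_left _ (Finset.dvd_prod_of_mem _ (Finset.mem_univ i)))
  obtain ⟨W, hW0, hWd, hW⟩ := prod_dvd_of_pair (4 * (q + 1)) (fun i => F i ^ (n i - 1)) Ψ hΨ
    (fun i j hij => fr_pair q _ _ _ _ _ _ _ _ (hda i j hij) _ _ (by have := hn i; omega)
      (by have := hn j; omega)) Finset.univ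
  have h1 := natDegree_le_of_dvd hW (mul_ne_zero hΨ0 hW0)
  rw [natDegree_prod _ _ fun i _ => pow_ne_zero _ (hF0 i), natDegree_mul hΨ0 hW0] at h1
  simp only [natDegree_pow, hFd] at h1
  rw [Finset.card_univ] at hWd
  have h2 : ∑ i, (n i - 1) * (q + 1) + (q + 1) * Fintype.card ι = (q + 1) * ∑ i, n i := by
    rw [← Finset.card_univ, Finset.card_eq_sum_ones, Finset.mul_sum, Finset.mul_sum,
      ← Finset.sum_add_distrib]
    refine Finset.sum_congr rfl fun i _ => ?_
    obtain ⟨n', h⟩ : ∃ n', n i = n' + 1 := ⟨n i - 1, by have := hn1 i; omega⟩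
    rw [h]; simp only [Nat.add_sub_cancel]; ring
  nlinarith

/-- Very-freeness: every polynomial of degree at most `N^2 - 2` is a combination of the
`X_i^(N - n_i)` with coefficients of degree at most `N n_i - 2`. -/
theorem veryFree [Fintype ι] [DecidableEq ι] (p e : ℕ) [ExpChar k p] (q : ℕ) (hqe : q = p ^ e)
    (hq : 1 ≤ q) (z d b a : ι → k) (n : ι → ℕ) (hn1 : ∀ i, 1 ≤ n i) (hn : ∀ i, n i ≤ q + 1)
    (ha : ∀ i, a i ≠ 0) (hda : ∀ i j, i ≠ j → d i * a j ≠ d j * a i)
    (hza : ∑ i, z i ^ q * a i ≠ 0) (hda0 : ∑ i, d i ^ q * a i = 0)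
    (hba : ∑ i, b i ^ q * a i = 0) (haa : ∑ i, a i ^ q * a i = 0)
    (hdd : ∑ i, d i ^ q * d i ≠ 0)
    (hbd : ∑ i, b i ^ q * d i = 0) (had : ∑ i, a i ^ q * d i = 0)
    (hbig : q * q + (q + 1) * (2 * Fintype.card ι + 4 * (Fintype.card ι * Fintype.card ι)) ≤
      (q + 1) * ∑ i, n i)
    (f : k[X]) (hf : f.degree < ((q + 1) * (q + 1) - 1 : ℕ)) :
    ∃ h : ι → k[X], (∀ i, (h i).degree < ((q + 1) * n i - 1 : ℕ)) ∧
      ∑ i, fr q (z i) (d i) (b i) (a i) ^ (q + 1 - n i) * h i = f := by
  classical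
  set F : ι → k[X] := fun i => fr q (z i) (d i) (b i) (a i) with hF
  have hFd : ∀ i, (F i).natDegree = q + 1 := fun i => fr_natDegree hq _ _ _ (ha i)
  set B := q * q + 2 * q with hB
  have hBe : (q + 1) * (q + 1) - 1 = B := by
    have : (q + 1) * (q + 1) = B + 1 := by rw [hB]; ring
    omega
  rw [hBe] at hf
  let S : Submodule k k[X] :=
    { carrier := {g | ∃ h : ι → k[X], (∀ i, (h i).degree < ((q + 1) * n i - 1 : ℕ)) ∧
        ∑ i, F i ^ (q + 1 - n i) * h i = g}
      add_mem' := by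
        rintro _ _ ⟨h, h1, rfl⟩ ⟨h', h1', rfl⟩
        exact ⟨h + h', fun i => lt_of_le_of_lt (degree_add_le _ _) (max_lt (h1 i) (h1' i)),
          by simp [mul_add, Finset.sum_add_distrib]⟩
      zero_mem' := ⟨0, fun i => by simp, by simp⟩
      smul_mem' := by
        rintro c _ ⟨h, h1, rfl⟩
        exact ⟨c • h, fun i => lt_of_le_of_lt (degree_smul_le _ _) (h1 i),
          by simp [Finset.smul_sum]⟩ }
  by_contra hfS
  have hfS' : f ∉ S := hfS
  obtain ⟨l, hl, hlS⟩ := S.exists_dual_map_eq_bot_of_notMem hfS' inferInstance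
  have hlS' : ∀ g ∈ S, l g = 0 := fun g hg => by
    have : l g ∈ S.map l := Submodule.mem_map_of_mem hg
    rwa [hlS, Submodule.mem_bot] at this
  set ψ : k[X] := ∑ j ∈ Finset.range B, monomial j (l (X ^ (B - 1 - j))) with hψ
  have hψc : ∀ r, ψ.coeff r = if r < B then l (X ^ (B - 1 - r)) else 0 := by
    intro r
    rw [hψ, finsetSum_coeff]
    simp only [coeff_monomial]
    rw [Finset.sum_ite_eq']
    simp
  have hB1 : 1 ≤ B := by omega
  have hl' : ∀ g : k[X], g.degree < B → l g = (ψ * g).coeff (B - 1) := by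
    intro g hg
    have e1 : g = ∑ j ∈ Finset.range B, monomial j (g.coeff j) := by
      by_cases hg0 : g = 0
      · simp [hg0]
      · exact g.as_sum_range' B ((natDegree_lt_iff_degree_lt hg0).2 hg)
    conv_lhs => rw [e1]
    conv_rhs => rw [e1]
    rw [map_sum, Finset.mul_sum, finsetSum_coeff]
    refine Finset.sum_congr rfl fun j hj => ?_
    have hj' := Finset.mem_range.1 hj
    rw [← C_mul_X_pow_eq_monomial, ← mul_assoc, coeff_mul_X_pow', if_pos (by omega), coeff_mul_C,
      hψc, if_pos (by omega), ← smul_eq_C_mul, map_smul, smul_eq_mul, mul_comm]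
    congr 3
    omega
  have h0 : ψ = 0 := by
    refine core p e q hqe hq z d b a n hn1 hn ha hda hza hda0 hba haa hdd hbd had hbig ψ
      (fun r hr => by rw [hψc, if_neg (by omega)]) (fun i r h1 h2 => ?_)
    have hj : B - 1 - r < (q + 1) * n i - 1 := by
      have : (q + 1) * (q + 1) = B + 1 := by rw [hB]; ring
      omega
    have hmem : F i ^ (q + 1 - n i) * X ^ (B - 1 - r) ∈ S := by
      refine ⟨Pi.single i (X ^ (B - 1 - r)), fun j => ?_, ?_⟩
      · by_cases hji : j = i
        · subst hji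
          rw [Pi.single_eq_same, degree_X_pow]
          exact_mod_cast hj
        · rw [Pi.single_eq_of_ne hji]
          simp
      · rw [Finset.sum_eq_single i]
        · rw [Pi.single_eq_same]
        · intro j _ hji
          rw [Pi.single_eq_of_ne hji, mul_zero]
        · simp
    have hdeg : (F i ^ (q + 1 - n i) * X ^ (B - 1 - r)).degree < (B : WithBot ℕ) := by
      refine lt_of_le_of_lt degree_le_natDegree ?_
      have h3 : (F i ^ (q + 1 - n i) * X ^ (B - 1 - r)).natDegree < B := by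
        refine lt_of_le_of_lt natDegree_mul_le ?_
        rw [natDegree_pow, hFd, natDegree_X_pow]
        have h4 : (q + 1 - n i) * (q + 1) + (q + 1) * n i = (q + 1) * (q + 1) := by
          have := hn i
          obtain ⟨c, hc⟩ := Nat.exists_eq_add_of_le this
          rw [hc, Nat.add_sub_cancel_left]; ring
        have : (q + 1) * (q + 1) = B + 1 := by rw [hB]; ring
        omega
      exact_mod_cast h3
    have h5 := hlS' _ hmem
    rw [hl' _ hdeg, ← mul_assoc, coeff_mul_X_pow', if_pos (by omega)] at h5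
    have e2 : B - 1 - (B - 1 - r) = r := by omega
    rwa [e2] at h5
  apply hl
  rw [hl' f hf, h0]
  simp

end Pool.Agent.MP_776d16_ag.H36
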