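import Mathlib
import Pool.Agent.MP_776d16_ag.H34.Spec
import Pool.Agent.MP_776d16_ag.H36.VF
import Pool.Agent.MP_776d16_ag.H36.FrameN

namespace Pool.Agent.MP_776d16_ag.H36

open Polynomial

variable {k : Type*} [Field k] {ι : Type*} [Fintype ι] [DecidableEq ι]

theorem exists_frame [IsAlgClosed k] (p : ℕ) [hp' : Fact p.Prime] [CharP k p]
    (hm : 4 ≤ Fintype.card ι) (hp1 : Fintype.card ι * Fintype.card ι + 3 ≤ p)
    (z : ι → k) (hz : z ≠ 0) : ∃ d b a : ι → k, IsFrame (frobeniusEquiv k p) z d b a := by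
  set σ := frobeniusEquiv k p with hσdef
  have hσ : ∀ x, σ x = x ^ p := fun x => rfl
  have hpp := hp'.out
  have hcast : ∀ n : ℕ, 0 < n → n < p → (n : k) ≠ 0 := fun n h0 h1 h =>
    absurd (Nat.le_of_dvd h0 ((CharP.cast_eq_zero_iff k p n).1 h)) (by omega)
  have h2 : (2 : k) ≠ 0 := by exact_mod_cast hcast 2 (by omega) (by nlinarith)
  have hc : (1 : k) - Fintype.card ι ≠ 0 := by
    have := hcast (Fintype.card ι - 1) (by omega) (by nlinarith [Nat.sub_le (Fintype.card ι) 1])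
    rw [Nat.cast_sub (by omega)] at this
    intro h
    apply this
    push_cast
    linear_combination -h
  obtain ⟨s0, hs0⟩ := IsAlgClosed.exists_pow_nat_eq (-1 : k) (n := p - 1) (by omega)
  have hs00 : s0 ≠ 0 := by
    rintro rfl
    rw [zero_pow (by omega)] at hs0
    simp at hs0
  have hs1 : σ s0 = -s0 := by
    have : p = (p - 1) + 1 := by omega
    rw [hσ, this, pow_succ, hs0]; ring
  have hs2 : σ s0 ≠ s0 := by
    rw [hs1]
    intro h
    have : 2 * s0 = 0 := by linear_combination -h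
    exact mul_ne_zero h2 hs00 this
  have hs3 : σ (σ s0) = s0 := by rw [hs1, map_neg, hs1, neg_neg]
  have hσσ : ∀ x, σ (σ x) = x ^ p ^ 2 := fun x => by rw [hσ, hσ, ← pow_mul, sq]
  have hS : ∀ P : k[X], P ≠ 0 → P.natDegree < p ^ 2 → ∃ s : k, σ (σ s) = s ∧ P.eval s ≠ 0 := by
    intro P h0 h1
    obtain ⟨s, hs, hs'⟩ := fixed_many p 2 two_ne_zero P h0 h1
    exact ⟨s, by rw [hσσ, hs], hs'⟩
  have hN : (Fintype.card ι * Fintype.card ι + 1) * (p + 1) < p ^ 2 := by nlinarith
  have h1p : 1 < p ^ 2 := by nlinarith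
  by_cases hr : ∀ κ : k, (fun i => σ (σ (z i))) ≠ κ • z
  · refine frame_nonrat σ p (p ^ 2) hσ hpp.two_le hm s0 hs2 hS hN ?_ z hr
    have hne : (X ^ p ^ 2 - X : k[X]) ≠ 0 := FiniteField.X_pow_card_sub_X_ne_zero k h1p
    refine (Polynomial.finite_setOfPred_isRoot hne).subset fun s hs => ?_
    have hs' : σ (σ s) = s := hs
    rw [hσσ] at hs'
    simp [hs']
  · push Not at hr
    obtain ⟨κ, hκ⟩ := hr
    obtain ⟨c, hc'⟩ := IsAlgClosed.exists_pow_nat_eq κ (n := p ^ 2 - 1) (by omega)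
    obtain ⟨l, hl⟩ := Function.ne_iff.1 hz
    have hκ0 : κ ≠ 0 := by
      rintro rfl
      have := congrFun hκ l
      exact hl (by simpa using this)
    have hc0 : c ≠ 0 := by
      rintro rfl
      rw [zero_pow (by omega)] at hc'
      exact hκ0 hc'.symm
    have hcc : σ (σ c) = κ * c := by
      have : p ^ 2 = (p ^ 2 - 1) + 1 := by omega
      rw [hσσ, this, pow_succ, hc']
    obtain ⟨d, b, a, h⟩ := frame_rat σ p (p ^ 2) hσ hpp.one_lt.le h2 hc hm s0 hs2 hs3 hS hN
      (c⁻¹ • z) (smul_ne_zero (inv_ne_zero hc0) hz) (fun i => by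
        have := congrFun hκ i
        simp only [Pi.smul_apply, smul_eq_mul, map_mul, map_inv₀, hcc] at this ⊢
        rw [this]
        field_simp)
    have := h.smul hc0
    rw [smul_smul, mul_inv_cancel₀ hc0, one_smul] at this
    exact ⟨_, _, _, this⟩

omit [DecidableEq ι] in
theorem frame_sum (p : ℕ) [Fact p.Prime] [CharP k p] (σ : k ≃+* k) (hσ : ∀ x, σ x = x ^ p)
    {z d b a : ι → k} (h : IsFrame σ z d b a) :
    ∑ i, fr p (z i) (d i) (b i) (a i) ^ (p + 1) = C (hp σ z z) := by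
  have e : ∀ i, fr p (z i) (d i) (b i) (a i) ^ (p + 1) =
      (C (σ (z i)) + C (σ (d i)) * X ^ p + C (σ (b i)) * X ^ (p * p) +
        C (σ (a i)) * X ^ (p * p + p)) *
      (C (z i) + C (d i) * X + C (b i) * X ^ p + C (a i) * X ^ (p + 1)) := by
    intro i
    have := fr_pow p 1 (z i) (d i) (b i) (a i)
    simp only [pow_one] at this
    rw [pow_succ, this]
    simp only [hσ, fr]
  have e2 : ∑ i, fr p (z i) (d i) (b i) (a i) ^ (p + 1) =
      C (hp σ z z) + C (hp σ z d) * X + C (hp σ d z + hp σ z b) * X ^ p +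
      C (hp σ d d + hp σ z a) * X ^ (p + 1) + C (hp σ d b) * (X ^ p * X ^ p) +
      C (hp σ d a) * (X ^ p * X ^ (p + 1)) + C (hp σ b z) * X ^ (p * p) +
      C (hp σ b d) * (X ^ (p * p) * X) + C (hp σ b b + hp σ a z) * X ^ (p * p + p) +
      C (hp σ b a) * (X ^ (p * p) * X ^ (p + 1)) + C (hp σ a d) * (X ^ (p * p + p) * X) +
      C (hp σ a b) * (X ^ (p * p + p) * X ^ p) +
      C (hp σ a a) * (X ^ (p * p + p) * X ^ (p + 1)) := by
    simp only [e, hp, map_add, map_sum, map_mul, add_mul, Finset.sum_mul, ← Finset.sum_add_distrib]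
    refine Finset.sum_congr rfl fun i _ => ?_
    ring
  rw [e2, h.zd, h.dz, h.dd, h.db, h.da, h.bz, h.bd, h.bb, h.ba, h.ad, h.ab, h.aa]
  simp

theorem p1 : H34.P1 := by
  intro ι _ a w d hW
  classical
  set m := Fintype.card ι with hm
  have hd := hW.pos
  obtain ⟨p, hpl, hpp, hpm⟩ := Nat.forall_exists_prime_gt_and_zmodEq
    ((4 * (m * m) + 2 * m + 4) * d) (q := d) (a := -1) hd.ne' (isCoprime_one_left.neg_left)
  obtain ⟨M, hM⟩ : ∃ M, p + 1 = M * d := by
    have : (d : ℤ) ∣ ((p + 1 : ℕ) : ℤ) := by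
      have := hpm.symm.dvd
      push_cast
      simpa using this
    obtain ⟨M, hM⟩ := Int.natCast_dvd_natCast.1 this
    exact ⟨M, by rw [hM, mul_comm]⟩
  have hM1 : 4 * (m * m) + 2 * m + 4 ≤ M := by
    by_contra h
    have : M * d ≤ (4 * (m * m) + 2 * m + 4) * d := Nat.mul_le_mul_right _ (by omega)
    omega
  have hp1 : m * m + 3 ≤ p := by nlinarith
  refine ⟨p, hpp, fun k _ _ _ r hr => ?_⟩
  have : Fact p.Prime := ⟨hpp⟩
  have hw : ∀ i, 1 ≤ w i := fun i => by
    have := hW.mul i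
    rcases Nat.eq_zero_or_pos (w i) with h | h
    · rw [h] at this; omega
    · exact h
  have hn1 : ∀ i, 1 ≤ M * w i := fun i => Nat.mul_pos (by omega) (hw i)
  have hna : ∀ i, M * w i * a i = p + 1 := fun i => by rw [hM, ← hW.mul i]; ring
  have hn : ∀ i, M * w i ≤ p + 1 := fun i => by
    have := hna i
    have := hW.two i
    nlinarith
  have hz : ∀ i, ∃ z : k, z ^ (M * w i) = r i := fun i =>
    IsAlgClosed.exists_pow_nat_eq _ (hn1 i)
  choose z hz using hz
  have hz0 : z ≠ 0 := by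
    rintro rfl
    apply hr
    funext i
    rw [← hz i]
    exact zero_pow (by have := hn1 i; omega)
  obtain ⟨δ, β, α, hF⟩ := exists_frame p hW.card hp1 z hz0
  have hσ : ∀ x, frobeniusEquiv k p x = x ^ p := fun x => rfl
  have hq : 1 ≤ p := hpp.one_lt.le
  have hFd : ∀ i, (fr p (z i) (δ i) (β i) (α i)).natDegree = p + 1 := fun i =>
    fr_natDegree hq _ _ _ (hF.a_ne i)
  have hdeg : ∀ i, (fr p (z i) (δ i) (β i) (α i) ^ (M * w i)).natDegree = (p + 1) * M * w i := by
    intro i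
    rw [natDegree_pow, hFd]; ring
  have hunit : ∀ i, (a i : k) ≠ 0 := by
    intro i h
    have h1 : ((M * w i * a i : ℕ) : k) = 1 := by
      rw [hna]; simp
    rw [Nat.cast_mul, h, mul_zero] at h1
    exact zero_ne_one h1
  refine ⟨(p + 1) * M, fun i => fr p (z i) (δ i) (β i) (α i) ^ (M * w i),
    fun i => (fr p (z i) (δ i) (β i) (α i) ^ (M * w i)).coeff ((p + 1) * M * w i),
    Nat.mul_pos (by omega) (by omega), fun i => (hdeg i).le, fun i => ?_, fun i => rfl, ?_, ?_⟩
  · rw [coeff_zero_eq_eval_zero, eval_pow, ← hz i]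
    congr 1
    simp [fr, hpp.ne_zero]
  · simp only [← pow_mul, hna]
    rw [frame_sum p _ hσ hF]
    congr 1
    refine Finset.sum_congr rfl fun i _ => ?_
    rw [hσ, ← pow_succ, ← hz i, ← pow_mul, hna]
  · intro f hf
    have e1 : (p + 1) * M * d = (p + 1) * (p + 1) := by rw [hM]; ring
    rw [e1] at hf
    have hza : hp (frobeniusEquiv k p) z α ≠ 0 := by
      intro h
      have := hF.dd
      rw [h, add_zero] at this
      exact hF.dd_ne this
    obtain ⟨h, h1, h2⟩ := veryFree p 1 p (pow_one p).symm hq z δ β α (fun i => M * w i) hn1 hn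
      hF.a_ne hF.da_ne hza hF.da hF.ba hF.aa hF.dd_ne hF.bd hF.ad (by
        rw [← Finset.mul_sum, ← hm]
        have h3 : M * (d + 1) ≤ M * ∑ i, w i := Nat.mul_le_mul_left _ hW.fano
        have h4 : (p + 1) * (p + 1 + M) ≤ (p + 1) * (M * ∑ i, w i) :=
          Nat.mul_le_mul_left _ (by rw [hM]; nlinarith)
        have h5 : (p + 1) * (2 * m + 4 * (m * m)) ≤ (p + 1) * M := Nat.mul_le_mul_left _ (by omega)
        nlinarith) f hf
    refine ⟨fun i => C ((a i : k)⁻¹) * h i, fun i => ?_, ?_⟩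
    · have e2 : (p + 1) * M * w i = (p + 1) * (M * w i) := by ring
      rw [e2, degree_C_mul (inv_ne_zero (hunit i))]
      exact h1 i
    · rw [← h2]
      refine Finset.sum_congr rfl fun i _ => ?_
      have e3 : M * w i * (a i - 1) = p + 1 - M * w i := by
        rw [← hna i, Nat.mul_sub_one]
      have e4 : (a i : k[X]) * C ((a i : k)⁻¹) = 1 := by
        rw [← C_eq_natCast, ← C_mul, mul_inv_cancel₀ (hunit i), C_1]
      rw [← pow_mul, e3]
      linear_combination (-(fr p (z i) (δ i) (β i) (α i) ^ (p + 1 - M * w i) * h i)) * e4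

end Pool.Agent.MP_776d16_ag.H36
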